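import Mathlib

set_option autoImplicit false

/-!
# Independent parameters: head and tail
-/

namespace Pool.Agent.Helper92K9.Ser

open MeasureTheory ProbabilityTheory Filter Topology

variable {Ω : Type} [MeasurableSpace Ω] {P : Measure Ω} [IsProbabilityMeasure P] {X : ℕ → Ω → ℝ}

theorem indep_tail (hX : ∀ j, Measurable (X j)) (hi : iIndepFun X P) (k : ℕ) :
    IndepFun (fun ω => fun j : ℕ => X (k + j) ω) (fun ω => fun i : Fin k => X i ω) P := by
  have h1 := indep_iSup_of_disjoint (m := fun j => MeasurableSpace.comap (X j) inferInstance)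
    (fun j => (hX j).comap_le) hi (S := {j | k ≤ j}) (T := {j | j < k}) (by
      rw [Set.disjoint_left]
      intro j h1 h2
      simp only [Set.mem_ofPred_eq] at h1 h2
      omega)
  rw [IndepFun_iff_Indep]
  refine indep_of_indep_of_le_left (indep_of_indep_of_le_right h1 ?_) ?_
  · rw [← measurable_iff_comap_le]
    refine @measurable_pi_lambda _ _ _ (⨆ i ∈ {j | j < k}, MeasurableSpace.comap (X i) inferInstance) _ _ fun i => ?_
    rw [measurable_iff_comap_le]
    exact le_iSup₂_of_le (i : ℕ) i.2 le_rfl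
  · rw [← measurable_iff_comap_le]
    refine @measurable_pi_lambda _ _ _ (⨆ i ∈ {j | k ≤ j}, MeasurableSpace.comap (X i) inferInstance) _ _ fun i => ?_
    rw [measurable_iff_comap_le]
    exact le_iSup₂_of_le (k + i : ℕ) (Nat.le_add_right k i) le_rfl

theorem ae_series (hX : ∀ j, Measurable (X j)) (hi : iIndepFun X P)
    (hu : ∀ j, P.map (X j) = volume.restrict (Set.Icc 0 1)) (k : ℕ)
    {p : (ℕ → ℝ) → (Fin k → ℝ) → Prop}
    (hm : MeasurableSet {z : (ℕ → ℝ) × (Fin k → ℝ) | p z.1 z.2})
    (hall : ∀ y, ∀ᵐ c ∂(volume : Measure (Fin k → ℝ)), (∀ i, c i ∈ Set.Icc (0 : ℝ) 1) → p y c) :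
    ∀ᵐ ω ∂P, p (fun j => X (k + j) ω) (fun i => X i ω) := by
  have ht : Measurable fun ω => fun j : ℕ => X (k + j) ω := measurable_pi_lambda _ fun j => hX _
  have hh : Measurable fun ω => fun i : Fin k => X i ω := measurable_pi_lambda _ fun i => hX _
  have hΦ := (indepFun_iff_map_prod_eq_prod_map_map ht.aemeasurable hh.aemeasurable).1 (indep_tail hX hi k)
  have hi' : iIndepFun (fun i : Fin k => X i) P := hi.precomp Fin.val_injective
  have hhead : P.map (fun ω => fun i : Fin k => X i ω) =
      (volume : Measure (Fin k → ℝ)).restrict (Set.pi Set.univ fun _ => Set.Icc 0 1) := by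
    rw [(iIndepFun_iff_map_fun_eq_pi_map (f := fun i : Fin k => X i) fun i => (hX i).aemeasurable).1 hi',
      volume_pi,
      Measure.restrict_pi_pi]
    congr 1
    funext i
    exact hu i
  have h2 : ∀ᵐ z ∂(P.map fun ω => ((fun j : ℕ => X (k + j) ω), (fun i : Fin k => X i ω))),
      p z.1 z.2 := by
    rw [hΦ, ae_iff, Measure.measure_prod_null]
    · refine Eventually.of_forall fun y => ?_
      have h3 : ∀ᵐ c ∂(P.map (fun ω => fun i : Fin k => X i ω)), p y c := by
        rw [hhead, ae_restrict_iff' (MeasurableSet.univ_pi fun _ => measurableSet_Icc)]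
        filter_upwards [hall y] with c hc hc'
        exact hc fun i => hc' i (Set.mem_univ i)
      exact h3
    · exact hm.compl
  exact ae_of_ae_map (ht.prodMk hh).aemeasurable h2

end Pool.Agent.Helper92K9.Ser
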