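import Pool.Agent.Helper92K9.PL.Mean
import Pool.Agent.Helper92K9.MP.Lln

set_option autoImplicit false

/-!
# Correlations almost everywhere
-/

namespace Pool.Agent.Helper92K9.PL

open Finset Filter Topology MeasureTheory
open Pool.Agent.Helper92K9.MP

variable {k : ℕ}

/-- the number `p` is an exponent (apart from its primality) -/
def ex (α : ℝ) (G ω : ℕ → ℝ) (c : Fin k → ℝ) (p : ℕ) : Prop :=
  (⌈amp G ω c p * α ^ p⌉₊ - 1).Prime

open Classical in
lemma gi_eq (α : ℝ) (G ω : ℕ → ℝ) (c : Fin k → ℝ) (p : ℕ) :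
    gi α G ω c p = if ex α G ω c p then 1 else 0 := by
  unfold gi phi chi ex
  split_ifs <;> rfl

open Classical in
lemma YY_card (α : ℝ) (G ω : ℕ → ℝ) {n : ℕ} (T : Finset (Fin n → ℕ)) (c : Fin k → ℝ) :
    YY α G ω T c = ((T.filter fun q => ∀ l, ex α G ω c (q l)).card : ℝ) := by
  unfold YY
  rw [Finset.card_filter]
  push_cast
  refine Finset.sum_congr rfl fun q _ => ?_
  simp only [gi_eq]
  split_ifs with h
  · exact Finset.prod_eq_one fun l _ => by rw [if_pos (h l)]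
  · push Not at h
    obtain ⟨l, hl⟩ := h
    exact Finset.prod_eq_zero (Finset.mem_univ l) (by rw [if_neg hl])

open Classical in
lemma sum_gi_card (α : ℝ) (G ω : ℕ → ℝ) (W : Finset ℕ) (c : Fin k → ℝ) :
    ∑ p ∈ W, gi α G ω c p = ((W.filter fun p => ex α G ω c p).card : ℝ) := by
  rw [Finset.card_filter]
  push_cast
  refine Finset.sum_congr rfl fun q _ => ?_
  rw [gi_eq]

/-- the falling factorials of the number of exponents in a window -/
lemma YY_desc (α : ℝ) (G ω : ℕ → ℝ) (a b z : ℝ) (n : ℕ) (c : Fin k → ℝ) : ∃ K : ℕ,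
    ∑ p ∈ Pr (a * z) (b * z), gi α G ω c p = K ∧
    YY α G ω (TW (fun _ : Fin n => a) (fun _ => b) z) c = (K.descFactorial n : ℝ) := by
  classical
  refine ⟨((Pr (a * z) (b * z)).filter fun p => ex α G ω c p).card, sum_gi_card _ _ _ _ _, ?_⟩
  rw [YY_card, ← card_inj]
  congr 2
  ext q
  unfold TW
  simp only [Finset.mem_filter, Fintype.mem_piFinset]
  constructor
  · rintro ⟨⟨h1, h2⟩, h3⟩
    exact ⟨fun i => ⟨h1 i, h3 i⟩, h2⟩
  · rintro ⟨h1, h2⟩
    exact ⟨⟨fun i => (h1 i).1, h2⟩, fun i => (h1 i).2⟩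

lemma cst {r : ℕ} {s t : Fin r → ℝ} (hs : ∀ i, 0 < s i) (hst : ∀ i, s i < t i) :
    ∃ c1 c2 : ℝ, 0 < c1 ∧ c1 ≤ 1 ∧ (∀ i, c1 ≤ s i) ∧ 1 ≤ c2 ∧ ∀ i, t i ≤ c2 := by
  have ht : ∀ i, 0 < t i := fun i => (hs i).trans (hst i)
  have h0 : 0 ≤ ∑ i, (s i)⁻¹ := Finset.sum_nonneg fun i _ => (inv_pos.2 (hs i)).le
  have h1 : 0 ≤ ∑ i, t i := Finset.sum_nonneg fun i _ => (ht i).le
  refine ⟨(1 + ∑ i, (s i)⁻¹)⁻¹, 1 + ∑ i, t i, by positivity, inv_le_one_of_one_le₀ (by linarith),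
    fun i => ?_, by linarith, fun i => ?_⟩
  · have h3 := Finset.single_le_sum (f := fun i => (s i)⁻¹) (fun i _ => (inv_pos.2 (hs i)).le) (Finset.mem_univ i)
    rw [inv_le_comm₀ (by linarith) (hs i)]
    linarith
  · have h3 := Finset.single_le_sum (f := fun i => t i) (fun i _ => (ht i).le) (Finset.mem_univ i)
    linarith

lemma TT_mem {r : ℕ} {s t : Fin r → ℝ} (hs : ∀ i, 0 < s i) (hst : ∀ i, s i < t i) {c1 c2 : ℝ}
    (h1 : 0 < c1) (h11 : c1 ≤ 1) (hc1 : ∀ i, c1 ≤ s i) (h2 : 1 ≤ c2) (hc2 : ∀ i, t i ≤ c2) {j : ℕ}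
    {q : Fin (r + 1) → ℕ} (hq : q ∈ TT s t j) : Function.Injective q ∧ ∀ l,
      q l ∈ Pr (c1 * Real.exp j) (c2 * Real.exp 1 * Real.exp j) := by
  classical
  unfold TT at hq
  rw [Finset.mem_biUnion] at hq
  obtain ⟨p, hp, hq⟩ := hq
  rw [mem_Tp hs hst] at hq
  obtain ⟨hp1, hp2, hp3⟩ := (mem_Pr (Real.exp_pos _).le (Real.exp_pos _).le).1 hp
  obtain ⟨g1, g2, g3⟩ := hq
  have he : Real.exp ((j : ℝ) + 1) = Real.exp 1 * Real.exp j := by rw [← Real.exp_add, add_comm]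
  have hej := Real.exp_pos (j : ℝ)
  have he1 := Real.exp_pos (1 : ℝ)
  refine ⟨g1, fun l => ?_⟩
  rw [mem_Pr (by positivity) (by positivity)]
  refine Fin.cases ?_ (fun i => ?_) l
  · rw [g2]
    refine ⟨hp1, ?_, ?_⟩
    · calc c1 * Real.exp j ≤ 1 * Real.exp j := by gcongr
        _ < p := by rw [one_mul]; exact hp2
    · calc (p : ℝ) ≤ 1 * (Real.exp 1 * Real.exp j) := by rw [one_mul, ← he]; exact hp3
        _ ≤ c2 * (Real.exp 1 * Real.exp j) := by gcongr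
        _ = _ := by ring
  · obtain ⟨k1, k2, k3⟩ := g3 i
    have ht : 0 < t i := (hs i).trans (hst i)
    refine ⟨k1, ?_, ?_⟩
    · refine lt_of_le_of_lt ?_ k2
      exact mul_le_mul (hc1 i) hp2.le hej.le (hs i).le
    · calc (q i.succ : ℝ) ≤ t i * p := k3
        _ ≤ c2 * (Real.exp 1 * Real.exp j) := by
            rw [← he]
            exact mul_le_mul (hc2 i) hp3 (Nat.cast_nonneg _) (by linarith)
        _ = _ := by ring

lemma bdd_of_ev {g : ℕ → ℝ} {C : ℝ} (h : ∀ᶠ j in atTop, g j ≤ C) : ∃ C' : ℝ, C ≤ C' ∧ ∀ j, g j ≤ C' := by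
  obtain ⟨N, hN⟩ := eventually_atTop.1 h
  have h0 : 0 ≤ ∑ j ∈ Finset.range N, |g j| := Finset.sum_nonneg fun j _ => abs_nonneg _
  refine ⟨(∑ j ∈ Finset.range N, |g j|) + |C|, by linarith [le_abs_self C], fun j => ?_⟩
  by_cases hj : j < N
  · have := Finset.single_le_sum (f := fun j => |g j|) (fun j _ => abs_nonneg _) (Finset.mem_range.2 hj)
    linarith [le_abs_self (g j), abs_nonneg C]
  · linarith [hN j (not_lt.1 hj), le_abs_self C]

/-- second moments -/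
lemma second {α : ℝ} {G ω : ℕ → ℝ} {D : ℕ} {u v : Fin k → ℝ} (hF : Fam k α G ω D u v) {r : ℕ}
    (hr : 2 * (r + 1) ≤ k) {s t : Fin r → ℝ} (hs : ∀ i, 0 < s i) (hst : ∀ i, s i < t i) :
    ∃ C : ℝ, ∀ᶠ j : ℕ in atTop, ∫ c in Bx u v, (YY α G ω (TT s t j) c) ^ 2 ≤ C := by
  classical
  obtain ⟨c1, c2, h1, h11, hc1, h2, hc2⟩ := cst hs hst
  set n := 2 * (r + 1) with hn
  set V := (volume : Measure (Fin k → ℝ)).real (Bx u v) with hV
  have hc12 : c1 < c2 * Real.exp 1 := by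
    have : (1 : ℝ) < Real.exp 1 := Real.one_lt_exp_iff.2 one_pos
    nlinarith
  have hm := mean hF (r := n) hr (a := fun _ => c1) (b := fun _ => c2 * Real.exp 1) (fun _ => h1) (fun _ => hc12)
  have hm2 := (hm.comp Real.tendsto_exp_atTop).comp (tendsto_natCast_atTop_atTop (R := ℝ))
  set L := V * ∏ _i : Fin n, (kap α * Real.log (c2 * Real.exp 1 / c1)) with hL
  refine ⟨V * (2 * n : ℝ) ^ n + 2 ^ n * (L + 1), ?_⟩
  filter_upwards [hm2.eventually_lt_const (show L < L + 1 by linarith)] with j hj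
  simp only [Function.comp] at hj
  set TWj := TW (fun _ : Fin n => c1) (fun _ => c2 * Real.exp 1) (Real.exp (j : ℝ)) with hTW
  have hpt : ∀ c : Fin k → ℝ, (YY α G ω (TT s t j) c) ^ 2 ≤ (2 * n : ℝ) ^ n + 2 ^ n * YY α G ω TWj c := by
    intro c
    obtain ⟨K, hK1, hK2⟩ := YY_desc α G ω c1 (c2 * Real.exp 1) (Real.exp (j : ℝ)) n c
    have e1 : YY α G ω (TT s t j) c ≤ (K : ℝ) ^ (r + 1) := by
      rw [← hK1]
      have e2 : (∑ p ∈ Pr (c1 * Real.exp j) (c2 * Real.exp 1 * Real.exp j), gi α G ω c p) ^ (r + 1) =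
          ∑ q ∈ Fintype.piFinset (fun _ : Fin (r + 1) => Pr (c1 * Real.exp j) (c2 * Real.exp 1 * Real.exp j)),
            ∏ l, gi α G ω c (q l) := by
        rw [← Finset.prod_univ_sum]
        simp
      rw [e2]
      unfold YY
      refine Finset.sum_le_sum_of_subset_of_nonneg ?_ fun q _ _ =>
        Finset.prod_nonneg fun l _ => gi_nonneg _ _ _ _ _
      intro q hq
      rw [Fintype.mem_piFinset]
      exact (TT_mem hs hst h1 h11 hc1 h2 hc2 hq).2
    calc (YY α G ω (TT s t j) c) ^ 2 ≤ ((K : ℝ) ^ (r + 1)) ^ 2 :=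
          pow_le_pow_left₀ (YY_nonneg _ _ _ _ _) e1 2
      _ = (K : ℝ) ^ n := by rw [← pow_mul, hn, mul_comm]
      _ ≤ (2 * n : ℝ) ^ n + 2 ^ n * (K.descFactorial n : ℝ) := pow_le_desc K n
      _ = _ := by rw [hTW, hK2]
  have hi1 : Integrable (fun c : Fin k → ℝ => (YY α G ω (TT s t j) c) ^ 2) (volume.restrict (Bx u v)) := by
    refine integrable_bdd (C := ((TT s t j).card : ℝ) ^ 2) ((measurable_YY α G ω _).pow_const 2) fun c => ?_
    rw [abs_of_nonneg (sq_nonneg _)]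
    exact pow_le_pow_left₀ (YY_nonneg _ _ _ _ _) (YY_le _ _ _ _ _) 2
  have hi2 : Integrable (fun c : Fin k → ℝ => YY α G ω TWj c) (volume.restrict (Bx u v)) := by
    refine integrable_bdd (C := (TWj.card : ℝ)) (measurable_YY α G ω _) fun c => ?_
    rw [abs_of_nonneg (YY_nonneg _ _ _ _ _)]
    exact YY_le _ _ _ _ _
  have h3 := integral_mono hi1 ((integrable_const _).add (hi2.const_mul (2 ^ n))) hpt
  refine h3.trans ?_
  have e4 : ∫ c in Bx u v, ((2 * n : ℝ) ^ n + 2 ^ n * YY α G ω TWj c) =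
      V * (2 * n : ℝ) ^ n + 2 ^ n * ∫ c in Bx u v, YY α G ω TWj c := by
    rw [integral_add (integrable_const _) (hi2.const_mul _), integral_const_mul, setIntegral_const, smul_eq_mul]
  have e5 : ∫ c in Bx u v, (((fun _ => (2 * n : ℝ) ^ n) + fun c => 2 ^ n * YY α G ω TWj c) : (Fin k → ℝ) → ℝ) c =
      ∫ c in Bx u v, ((2 * n : ℝ) ^ n + 2 ^ n * YY α G ω TWj c) := rfl
  rw [e5, e4]
  have : (0 : ℝ) < 2 ^ n := by positivity
  nlinarith

lemma SW_tendsto_mu {α : ℝ} (hα : 1 < α) {r : ℕ} {s t : Fin r → ℝ} (hs : ∀ i, 0 < s i) (hst : ∀ i, s i < t i) :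
    Tendsto (fun j : ℕ => SW (mu α) (TT s t j)) atTop (𝓝 (kap α * ∏ i, (kap α * Real.log (t i / s i)))) :=
  tt_sum (wt_mu hα) hs hst

lemma SW_tendsto_xx {r : ℕ} {s t : Fin r → ℝ} (hs : ∀ i, 0 < s i) (hst : ∀ i, s i < t i) :
    Tendsto (fun j : ℕ => SW xx (TT s t j)) atTop (𝓝 (1 * ∏ i, (1 * Real.log (t i / s i)))) :=
  tt_sum wt_xx hs hst

/-- covariances of the blocks -/
lemma covar {α : ℝ} {G ω : ℕ → ℝ} {D : ℕ} {u v : Fin k → ℝ} (hF : Fam k α G ω D u v) {r : ℕ}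
    (hr : 2 * (r + 1) ≤ k) {s t : Fin r → ℝ} (hs : ∀ i, 0 < s i) (hst : ∀ i, s i < t i) :
    ∃ (C : ℝ) (l0 : ℕ), 0 ≤ C ∧ ∀ᶠ i : ℕ in atTop, ∀ j : ℕ, i + l0 ≤ j → j ≤ 2 * i →
      |∫ c in Bx u v, (YY α G ω (TT s t i) c - SW (mu α) (TT s t i)) *
        (YY α G ω (TT s t j) c - SW (mu α) (TT s t j))| ≤ C / i := by
  classical
  obtain ⟨c1, c2, h1, h11, hc1, h2, hc2⟩ := cst hs hst
  obtain ⟨C1, hC1, hev1⟩ := tup_sum hF 3
  obtain ⟨C2, hC2, hev2⟩ := pair_sum hF 3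
  have he1 := Real.exp_pos (1 : ℝ)
  -- bounds of the sums of the weights
  have m1 := SW_tendsto_mu hF.hα hs hst
  have m2 := SW_tendsto_xx hs hst
  set L1 := kap α * ∏ i, (kap α * Real.log (t i / s i)) with hL1
  set L2 := 1 * ∏ i, (1 * Real.log (t i / s i)) with hL2
  have hb : ∀ᶠ j : ℕ in atTop, SW (mu α) (TT s t j) < L1 + 1 ∧ SW xx (TT s t j) < L2 + 1 :=
    (m1.eventually_lt_const (by linarith)).and (m2.eventually_lt_const (by linarith))
  obtain ⟨N1, hN1⟩ := eventually_atTop.1 hb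
  have hmu0 : ∀ j, 0 ≤ SW (mu α) (TT s t j) := fun j => SW_nonneg (mu_nonneg hF.hα) _
  have hxx0 : ∀ j, 0 ≤ SW xx (TT s t j) := fun j => SW_nonneg xx_nonneg _
  have hL1' : 0 < L1 + 1 := lt_of_le_of_lt (hmu0 N1) (hN1 N1 le_rfl).1
  have hL2' : 0 < L2 + 1 := lt_of_le_of_lt (hxx0 N1) (hN1 N1 le_rfl).2
  obtain ⟨l0, hl0⟩ := exists_nat_ge (Real.log (c2 * Real.exp 1 / c1))
  have hl0' : c2 * Real.exp 1 ≤ c1 * Real.exp l0 := by
    have h3 : Real.log (c2 * Real.exp 1 / c1) ≤ l0 := hl0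
    rw [Real.log_le_iff_le_exp (by positivity), div_le_iff₀ h1] at h3
    linarith
  refine ⟨C2 * ((L2 + 1) * (L2 + 1)) + 2 * (C1 * ((L1 + 1) * (L2 + 1))), l0, by positivity, ?_⟩
  have hfl : Tendsto (fun i : ℕ => ⌊c1 * Real.exp (i : ℝ)⌋₊) atTop atTop :=
    tendsto_nat_floor_atTop.comp ((Real.tendsto_exp_atTop.comp tendsto_natCast_atTop_atTop).const_mul_atTop h1)
  have hbig1 : ∀ᶠ i : ℕ in atTop, 8 * (c2 * Real.exp 1) / c1 ^ 3 ≤ Real.exp (i : ℝ) :=
    (Real.tendsto_exp_atTop.comp (tendsto_natCast_atTop_atTop (R := ℝ))).eventually_ge_atTop _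
  have hbig2 : ∀ᶠ i : ℕ in atTop, 2 / c1 ≤ Real.exp (i : ℝ) :=
    (Real.tendsto_exp_atTop.comp (tendsto_natCast_atTop_atTop (R := ℝ))).eventually_ge_atTop _
  have hbig3 : ∀ᶠ i : ℕ in atTop, (2 / c1) * (i : ℝ) ^ 2 ≤ Real.exp (i : ℝ) := by
    have h3 := (Real.tendsto_pow_mul_exp_neg_atTop_nhds_zero 2).comp (tendsto_natCast_atTop_atTop (R := ℝ))
    have h4 : ∀ᶠ i : ℕ in atTop, (i : ℝ) ^ 2 * Real.exp (-(i : ℝ)) < c1 / 2 :=
      h3.eventually_lt_const (by positivity)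
    filter_upwards [h4] with i hi
    rw [Real.exp_neg, ← div_eq_mul_inv, div_lt_iff₀ (Real.exp_pos _)] at hi
    rw [div_mul_eq_mul_div, div_le_iff₀ h1]
    linarith
  filter_upwards [eventually_ge_atTop N1, hfl.eventually hev1, hfl.eventually hev2, hbig1, hbig2, hbig3,
    eventually_ge_atTop 1] with i hiN f1 f2 g1 g2 g3 hi1 j hij hj2
  have hi0 : (0 : ℝ) < i := by exact_mod_cast hi1
  set m := ⌊c1 * Real.exp (i : ℝ)⌋₊ with hm
  have hei := Real.exp_pos (i : ℝ)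
  have hce : 0 < c1 * Real.exp (i : ℝ) := by positivity
  have hmle : (m : ℝ) ≤ c1 * Real.exp (i : ℝ) := Nat.floor_le hce.le
  have hmlt : c1 * Real.exp (i : ℝ) < (m : ℝ) + 1 := Nat.lt_floor_add_one _
  have hmhalf : c1 * Real.exp (i : ℝ) / 2 ≤ m := by
    rw [div_le_iff₀ h1] at g2
    linarith
  -- membership
  have hrange : ∀ j' : ℕ, i ≤ j' → j' ≤ 2 * i → ∀ q ∈ TT s t j', ∀ l, m ≤ q l ∧ q l ≤ m ^ 3 := by
    intro j' hj1 hj2 q hq l
    have h3 := (TT_mem hs hst h1 h11 hc1 h2 hc2 hq).2 l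
    have hej := Real.exp_pos (j' : ℝ)
    obtain ⟨_, h4, h5⟩ := (mem_Pr (by positivity) (by positivity)).1 h3
    constructor
    · have : (m : ℝ) ≤ q l := by
        refine hmle.trans (le_trans ?_ h4.le)
        have : Real.exp (i : ℝ) ≤ Real.exp (j' : ℝ) := Real.exp_le_exp.2 (by exact_mod_cast hj1)
        gcongr
      exact_mod_cast this
    · have : (q l : ℝ) ≤ (m : ℝ) ^ 3 := by
        have e1 : Real.exp (j' : ℝ) ≤ Real.exp (i : ℝ) ^ 2 := by
          rw [← Real.exp_nat_mul]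
          refine Real.exp_le_exp.2 ?_
          push_cast
          exact_mod_cast hj2
        have e2 : (c1 * Real.exp (i : ℝ) / 2) ^ 3 ≤ (m : ℝ) ^ 3 := pow_le_pow_left₀ (by positivity) hmhalf 3
        refine (h5.trans ?_).trans e2
        calc c2 * Real.exp 1 * Real.exp j' ≤ c2 * Real.exp 1 * Real.exp (i : ℝ) ^ 2 := by gcongr
          _ = c1 ^ 3 / 8 * (8 * (c2 * Real.exp 1) / c1 ^ 3) * Real.exp (i : ℝ) ^ 2 := by field_simp
          _ ≤ c1 ^ 3 / 8 * Real.exp (i : ℝ) * Real.exp (i : ℝ) ^ 2 := by gcongr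
          _ = _ := by ring
      exact_mod_cast this
  have hinj : ∀ j' : ℕ, ∀ q ∈ TT s t j', Function.Injective q := fun j' q hq =>
    (TT_mem hs hst h1 h11 hc1 h2 hc2 hq).1
  have hdis : ∀ q ∈ TT s t i, ∀ q' ∈ TT s t j, ∀ l l', q l ≠ q' l' := by
    intro q hq q' hq' l l' hll
    have h3 := (TT_mem hs hst h1 h11 hc1 h2 hc2 hq).2 l
    have h4 := (TT_mem hs hst h1 h11 hc1 h2 hc2 hq').2 l'
    have hej := Real.exp_pos (j : ℝ)
    obtain ⟨_, _, h5⟩ := (mem_Pr (by positivity) (by positivity)).1 h3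
    obtain ⟨_, h6, _⟩ := (mem_Pr (by positivity) (by positivity)).1 h4
    rw [hll] at h5
    have e1 : c2 * Real.exp 1 * Real.exp i ≤ c1 * Real.exp j := by
      calc c2 * Real.exp 1 * Real.exp i ≤ c1 * Real.exp l0 * Real.exp i := by gcongr
        _ = c1 * Real.exp (l0 + i) := by rw [Real.exp_add]; ring
        _ ≤ c1 * Real.exp j := by
            have : Real.exp ((l0 : ℝ) + i) ≤ Real.exp j := Real.exp_le_exp.2 (by
              have : ((i + l0 : ℕ) : ℝ) ≤ j := by exact_mod_cast hij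
              push_cast at this
              linarith)
            gcongr
    linarith
  have hii : i ≤ j := by omega
  have b1 := f1 (r + 1) (by omega) (TT s t i) (hinj i) (hrange i le_rfl (by omega))
  have b2 := f1 (r + 1) (by omega) (TT s t j) (hinj j) (hrange j hii hj2)
  have b3 := f2 (r + 1) hr (TT s t i) (TT s t j) (hinj i) (hrange i le_rfl (by omega)) (hinj j)
    (hrange j hii hj2) hdis
  set V := (volume : Measure (Fin k → ℝ)).real (Bx u v) with hV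
  set ai := SW (mu α) (TT s t i) with hai
  set aj := SW (mu α) (TT s t j) with haj
  set xi := SW xx (TT s t i) with hxi
  set xj := SW xx (TT s t j) with hxj
  obtain ⟨w1, w2⟩ := hN1 i hiN
  obtain ⟨w3, w4⟩ := hN1 j (hiN.trans hii)
  have n1 : 0 ≤ ai := hmu0 i
  have n2 : 0 ≤ aj := hmu0 j
  have n3 : 0 ≤ xi := hxx0 i
  have n4 : 0 ≤ xj := hxx0 j
  -- integrability
  have hI : ∀ j' : ℕ, Integrable (fun c : Fin k → ℝ => YY α G ω (TT s t j') c) (volume.restrict (Bx u v)) := by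
    intro j'
    refine integrable_bdd (C := ((TT s t j').card : ℝ)) (measurable_YY α G ω _) fun c => ?_
    rw [abs_of_nonneg (YY_nonneg _ _ _ _ _)]
    exact YY_le _ _ _ _ _
  have hIJ : Integrable (fun c : Fin k → ℝ => YY α G ω (TT s t i) c * YY α G ω (TT s t j) c)
      (volume.restrict (Bx u v)) := by
    refine integrable_bdd (C := ((TT s t i).card : ℝ) * (TT s t j).card)
      ((measurable_YY α G ω _).mul (measurable_YY α G ω _)) fun c => ?_
    rw [abs_of_nonneg (mul_nonneg (YY_nonneg _ _ _ _ _) (YY_nonneg _ _ _ _ _))]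
    exact mul_le_mul (YY_le _ _ _ _ _) (YY_le _ _ _ _ _) (YY_nonneg _ _ _ _ _) (Nat.cast_nonneg _)
  have hexp : ∫ c in Bx u v, (YY α G ω (TT s t i) c - ai) * (YY α G ω (TT s t j) c - aj) =
      (∫ c in Bx u v, YY α G ω (TT s t i) c * YY α G ω (TT s t j) c) - aj * (∫ c in Bx u v, YY α G ω (TT s t i) c)
      - ai * (∫ c in Bx u v, YY α G ω (TT s t j) c) + V * (ai * aj) := by
    have e1 : ∀ c : Fin k → ℝ, (YY α G ω (TT s t i) c - ai) * (YY α G ω (TT s t j) c - aj) =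
        ((YY α G ω (TT s t i) c * YY α G ω (TT s t j) c - aj * YY α G ω (TT s t i) c) -
          ai * YY α G ω (TT s t j) c) + ai * aj := fun c => by ring
    simp only [e1]
    have hA : Integrable (fun c : Fin k → ℝ => YY α G ω (TT s t i) c * YY α G ω (TT s t j) c -
        aj * YY α G ω (TT s t i) c) (volume.restrict (Bx u v)) := hIJ.sub ((hI i).const_mul aj)
    have hB : Integrable (fun c : Fin k → ℝ => YY α G ω (TT s t i) c * YY α G ω (TT s t j) c -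
        aj * YY α G ω (TT s t i) c - ai * YY α G ω (TT s t j) c) (volume.restrict (Bx u v)) :=
      hA.sub ((hI j).const_mul ai)
    rw [integral_add hB (integrable_const _), integral_sub hA ((hI j).const_mul ai),
      integral_sub hIJ ((hI i).const_mul aj), integral_const_mul, integral_const_mul, setIntegral_const,
      smul_eq_mul]
  rw [hexp]
  set I0 := ∫ c in Bx u v, YY α G ω (TT s t i) c * YY α G ω (TT s t j) c with hI0
  set I1 := ∫ c in Bx u v, YY α G ω (TT s t i) c with hI1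
  set I2 := ∫ c in Bx u v, YY α G ω (TT s t j) c with hI2
  have e1 : I0 - aj * I1 - ai * I2 + V * (ai * aj) =
      (I0 - V * (ai * aj)) - aj * (I1 - V * ai) - ai * (I2 - V * aj) := by ring
  rw [e1]
  have hsm : (i : ℝ) ≤ √(m : ℝ) := by
    refine Real.le_sqrt_of_sq_le ?_
    rw [div_mul_eq_mul_div, div_le_iff₀ h1] at g3
    linarith
  have hsm0 : 0 < √(m : ℝ) := lt_of_lt_of_le hi0 hsm
  have hdiv : ∀ C : ℝ, 0 ≤ C → C / √(m : ℝ) ≤ C / i := fun C hC => div_le_div_of_nonneg_left hC hi0 hsm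
  have t1 : |I0 - V * (ai * aj)| ≤ C2 / i * ((L2 + 1) * (L2 + 1)) := by
    refine b3.trans ?_
    have := hdiv C2 hC2.le
    have h3 : 0 ≤ C2 / √(m : ℝ) := by positivity
    gcongr
  have t2 : |aj * (I1 - V * ai)| ≤ C1 / i * ((L1 + 1) * (L2 + 1)) := by
    rw [abs_mul, abs_of_nonneg n2]
    have := hdiv C1 hC1.le
    have h3 : 0 ≤ C1 / √(m : ℝ) := by positivity
    calc aj * |I1 - V * ai| ≤ (L1 + 1) * (C1 / i * (L2 + 1)) := by
          refine mul_le_mul w3.le (b1.trans ?_) (abs_nonneg _) hL1'.le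
          gcongr
      _ = _ := by ring
  have t3 : |ai * (I2 - V * aj)| ≤ C1 / i * ((L1 + 1) * (L2 + 1)) := by
    rw [abs_mul, abs_of_nonneg n1]
    have := hdiv C1 hC1.le
    have h3 : 0 ≤ C1 / √(m : ℝ) := by positivity
    calc ai * |I2 - V * aj| ≤ (L1 + 1) * (C1 / i * (L2 + 1)) := by
          refine mul_le_mul w1.le (b2.trans ?_) (abs_nonneg _) hL1'.le
          gcongr
      _ = _ := by ring
  calc _ ≤ |I0 - V * (ai * aj)| + |aj * (I1 - V * ai)| + |ai * (I2 - V * aj)| := by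
        refine (abs_sub _ _).trans ?_
        gcongr
        exact abs_sub _ _
    _ ≤ C2 / i * ((L2 + 1) * (L2 + 1)) + C1 / i * ((L1 + 1) * (L2 + 1)) + C1 / i * ((L1 + 1) * (L2 + 1)) := by
        gcongr
    _ = _ := by ring

/-- **The blocks obey the law of large numbers.** -/
theorem ae_block {α : ℝ} {G ω : ℕ → ℝ} {D : ℕ} {u v : Fin k → ℝ} (hF : Fam k α G ω D u v) {r : ℕ}
    (hr : 2 * (r + 1) ≤ k) {s t : Fin r → ℝ} (hs : ∀ i, 0 < s i) (hst : ∀ i, s i < t i) :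
    ∀ᵐ c ∂(volume.restrict (Bx u v)), Tendsto (fun J : ℕ =>
      (∑ j ∈ Finset.range J, YY α G ω (TT s t j) c) / (J : ℝ)) atTop
      (𝓝 (kap α * ∏ i, (kap α * Real.log (t i / s i)))) := by
  classical
  obtain ⟨C1, h1⟩ := second hF hr hs hst
  obtain ⟨C2, l0, hC2, h2⟩ := covar hF hr hs hst
  have m1 := SW_tendsto_mu hF.hα hs hst
  set L1 := kap α * ∏ i, (kap α * Real.log (t i / s i)) with hL1
  set V := (volume : Measure (Fin k → ℝ)).real (Bx u v) with hV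
  have hV0 : 0 ≤ V := measureReal_nonneg
  have h3 : ∀ᶠ j : ℕ in atTop, ∫ c in Bx u v, (YY α G ω (TT s t j) c - SW (mu α) (TT s t j)) ^ 2 ≤
      2 * C1 + 2 * (L1 + 1) ^ 2 * V := by
    filter_upwards [h1, m1.eventually_lt_const (show L1 < L1 + 1 by linarith)] with j hj hj2
    set a := SW (mu α) (TT s t j) with ha
    have ha0 : 0 ≤ a := SW_nonneg (mu_nonneg hF.hα) _
    have hi1 : Integrable (fun c : Fin k → ℝ => (YY α G ω (TT s t j) c) ^ 2) (volume.restrict (Bx u v)) := by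
      refine integrable_bdd (C := ((TT s t j).card : ℝ) ^ 2) ((measurable_YY α G ω _).pow_const 2) fun c => ?_
      rw [abs_of_nonneg (sq_nonneg _)]
      exact pow_le_pow_left₀ (YY_nonneg _ _ _ _ _) (YY_le _ _ _ _ _) 2
    have hi2 : Integrable (fun c : Fin k → ℝ => (YY α G ω (TT s t j) c - a) ^ 2) (volume.restrict (Bx u v)) := by
      refine integrable_bdd (C := (((TT s t j).card : ℝ) + a) ^ 2)
        (((measurable_YY α G ω _).sub_const a).pow_const 2) fun c => ?_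
      rw [abs_of_nonneg (sq_nonneg _), sq_le_sq, abs_of_nonneg (by positivity : 0 ≤ ((TT s t j).card : ℝ) + a)]
      have h4 := YY_nonneg α G ω (TT s t j) c
      have h5 := YY_le α G ω (TT s t j) c
      rw [abs_le]
      constructor <;> linarith
    have h4 := integral_mono hi2 ((hi1.const_mul 2).add (integrable_const (2 * a ^ 2))) (fun c => by
      show (YY α G ω (TT s t j) c - a) ^ 2 ≤ 2 * (YY α G ω (TT s t j) c) ^ 2 + 2 * a ^ 2
      nlinarith [sq_nonneg (YY α G ω (TT s t j) c + a)])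
    refine h4.trans ?_
    have e4 : ∫ c in Bx u v, (2 * (YY α G ω (TT s t j) c) ^ 2 + 2 * a ^ 2) =
        2 * (∫ c in Bx u v, (YY α G ω (TT s t j) c) ^ 2) + V * (2 * a ^ 2) := by
      rw [integral_add (hi1.const_mul _) (integrable_const _), integral_const_mul, setIntegral_const, smul_eq_mul]
    have e5 : ∫ c in Bx u v, (((fun c => 2 * (YY α G ω (TT s t j) c) ^ 2) + fun _ => 2 * a ^ 2) :
        (Fin k → ℝ) → ℝ) c = ∫ c in Bx u v, (2 * (YY α G ω (TT s t j) c) ^ 2 + 2 * a ^ 2) := rfl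
    rw [e5, e4]
    have h5 : a ^ 2 ≤ (L1 + 1) ^ 2 := pow_le_pow_left₀ ha0 hj2.le 2
    have h6 : V * (2 * a ^ 2) ≤ V * (2 * (L1 + 1) ^ 2) := by gcongr
    linarith
  obtain ⟨C3, hC3, h4⟩ := bdd_of_ev h3
  obtain ⟨i0, hi0⟩ := eventually_atTop.1 h2
  refine lln (a := fun j => SW (mu α) (TT s t j)) (C := max C2 C3) (i0 := max i0 1) (l0 := l0)
    (fun j => measurable_YY α G ω _) (fun j => ⟨(TT s t j).card, fun c => ?_⟩)
    (fun j c => YY_nonneg _ _ _ _ _) m1 (fun j => (h4 j).trans (le_max_right _ _)) (fun i j hi hij hj2 => ?_)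
  · rw [abs_of_nonneg (YY_nonneg _ _ _ _ _)]
    exact YY_le _ _ _ _ _
  · refine (hi0 i ((le_max_left _ _).trans hi) j hij hj2).trans ?_
    gcongr
    exact le_max_left _ _

end Pool.Agent.Helper92K9.PL
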