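import Mathlib
import Pool.Agent.H442R2.EHI.PntErr

set_option autoImplicit false

/-!
# Primes in intervals of relative length `p ^ (-K)`

`cnt p A B` is the number of the primes in `(A, B]` (the parameter `p` is the index of the interval).
For intervals of length at least `A p ^ (-K)` with end points `exp (L p + O (log p))` it is
asymptotic to `(B - A) / (L p)`.
-/

namespace Pool.Agent.Helper92K9.PL

open Finset Filter Topology

/-- the number of the primes in `(A, B]` -/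
noncomputable def cnt (_p A B : ℕ) : ℝ := (((Finset.Ioc A B).filter (fun m => m.Prime)).card : ℝ)

/-- the primes of `(A / s, B / s]` that are larger than `p` -/
noncomputable def nn (p A B s : ℕ) : ℝ :=
  (((Finset.Ioc (A / s) (B / s)).filter (fun r => r.Prime ∧ p < r)).card : ℝ)

lemma theta_sub {M N : ℕ} (h : M ≤ N) : Chebyshev.theta (N : ℝ) - Chebyshev.theta (M : ℝ) =
    ∑ r ∈ (Finset.Ioc M N).filter Nat.Prime, Real.log r := by
  unfold Chebyshev.theta
  simp only [Nat.floor_natCast]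
  have h1 : (Finset.Ioc 0 N).filter Nat.Prime = (Finset.Ioc 0 M).filter Nat.Prime ∪
      (Finset.Ioc M N).filter Nat.Prime := by
    ext r
    simp only [Finset.mem_filter, Finset.mem_union, Finset.mem_Ioc]
    constructor
    · rintro ⟨⟨h2, h3⟩, h4⟩
      by_cases h5 : r ≤ M
      · exact Or.inl ⟨⟨h2, h5⟩, h4⟩
      · exact Or.inr ⟨⟨by omega, h3⟩, h4⟩
    · rintro (⟨⟨h2, h3⟩, h4⟩ | ⟨⟨h2, h3⟩, h4⟩)
      · exact ⟨⟨h2, h3.trans h⟩, h4⟩
      · exact ⟨⟨by omega, h3⟩, h4⟩
  have h2 : Disjoint ((Finset.Ioc 0 M).filter Nat.Prime) ((Finset.Ioc M N).filter Nat.Prime) := by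
    rw [Finset.disjoint_left]
    intro r h3 h4
    simp only [Finset.mem_filter, Finset.mem_Ioc] at h3 h4
    omega
  rw [h1, Finset.sum_union h2]
  ring

/-- the primes of a window -/
lemma one_s {U : ℕ} {C : ℝ} (hC : 0 < C)
    (hθ : ∀ N : ℕ, 2 ≤ N → |Chebyshev.theta (N : ℝ) - N| ≤ C * (N / Real.log N ^ U))
    {p A B s : ℕ} (hs : 0 < s) (hAB : A ≤ B) {l0 l1 l : ℝ} (h0 : 4 ≤ l0) (h01 : l0 ≤ l) (h1 : l ≤ l1)
    (hA : l0 ≤ Real.log ((A : ℝ) / s)) (hB : Real.log ((B : ℝ) / s) ≤ l1)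
    (hp : (p : ℝ) < (A : ℝ) / s) (hA0 : 0 < A) :
    |nn p A B s - ((B : ℝ) - A) / s / l| ≤ ((B : ℝ) - A) / s * (1 / l0 - 1 / l1) +
      (2 * C * ((B : ℝ) / s) / (l0 / 2) ^ U + 1) / l0 := by
  have hs0 : (0 : ℝ) < s := by exact_mod_cast hs
  have hA0' : (0 : ℝ) < A := by exact_mod_cast hA0
  have hB0' : (0 : ℝ) < B := by exact_mod_cast (lt_of_lt_of_le hA0 hAB)
  have hABr : (A : ℝ) ≤ B := by exact_mod_cast hAB
  set a := (A : ℝ) / s with ha
  set b := (B : ℝ) / s with hb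
  have ha0 : 0 < a := by positivity
  have hb0 : 0 < b := by positivity
  have hab : a ≤ b := by rw [ha, hb]; gcongr
  have hy : ((B : ℝ) - A) / s = b - a := by rw [ha, hb]; ring
  rw [hy]
  have hl00 : 0 < l0 := by linarith
  have hl0 : 0 < l := by linarith
  have hl10 : 0 < l1 := by linarith
  -- the natural number quotients
  set M := A / s with hM
  set N := B / s with hN
  have hMN : M ≤ N := Nat.div_le_div_right hAB
  have hMa : (M : ℝ) ≤ a := Nat.cast_div_le
  have hNb : (N : ℝ) ≤ b := Nat.cast_div_le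
  have hMa' : a < M + 1 := by
    rw [ha, div_lt_iff₀ hs0]
    have : A < (A / s + 1) * s := (Nat.div_lt_iff_lt_mul hs).1 (Nat.lt_succ_self _)
    exact_mod_cast this
  have hNb' : b < N + 1 := by
    rw [hb, div_lt_iff₀ hs0]
    have : B < (B / s + 1) * s := (Nat.div_lt_iff_lt_mul hs).1 (Nat.lt_succ_self _)
    exact_mod_cast this
  have haexp : Real.exp l0 ≤ a := (Real.le_log_iff_exp_le ha0).1 hA
  have he4 : (5 : ℝ) ≤ Real.exp l0 := by
    have := Real.add_one_le_exp l0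
    linarith
  have hM2 : 2 ≤ M := by
    have : (4 : ℝ) < M + 1 := by linarith
    have : (3 : ℝ) < M := by linarith
    have : 3 < M := by exact_mod_cast this
    omega
  have hN2 : 2 ≤ N := hM2.trans hMN
  have hlog : ∀ (T : ℕ) (t : ℝ), a ≤ t → t < T + 1 → (T : ℝ) ≤ t → l0 / 2 ≤ Real.log T := by
    intro T t h1 h2 h3
    have hT : Real.exp (l0 / 2) ≤ T := by
      have e1 : Real.exp l0 = Real.exp (l0 / 2) * Real.exp (l0 / 2) := by
        rw [← Real.exp_add]; ring_nf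
      have e2 : 3 ≤ Real.exp (l0 / 2) := by
        have := Real.add_one_le_exp (l0 / 2)
        linarith
      nlinarith
    exact (Real.le_log_iff_exp_le (lt_of_lt_of_le (Real.exp_pos _) hT)).2 hT
  have hlM := hlog M a le_rfl hMa' hMa
  have hlN := hlog N b hab hNb' hNb
  have hθM := hθ M hM2
  have hθN := hθ N hN2
  have hMe : C * ((M : ℝ) / Real.log M ^ U) ≤ C * (b / (l0 / 2) ^ U) := by
    gcongr
    linarith
  have hNe : C * ((N : ℝ) / Real.log N ^ U) ≤ C * (b / (l0 / 2) ^ U) := by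
    gcongr
  set E := 2 * C * b / (l0 / 2) ^ U + 1 with hE
  set Θ := ∑ r ∈ (Finset.Ioc M N).filter Nat.Prime, Real.log r with hΘ
  have hΘE : |Θ - (b - a)| ≤ E := by
    rw [hΘ, ← theta_sub hMN]
    rw [abs_le] at hθM hθN ⊢
    have e : 2 * C * b / (l0 / 2) ^ U = C * (b / (l0 / 2) ^ U) + C * (b / (l0 / 2) ^ U) := by ring
    rw [hE, e]
    constructor
    · linarith [hθM.1, hθM.2, hθN.1, hθN.2]
    · linarith [hθM.1, hθM.2, hθN.1, hθN.2]
  -- the condition `p < r` is automatic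
  have hfil : (Finset.Ioc M N).filter (fun r => r.Prime ∧ p < r) = (Finset.Ioc M N).filter Nat.Prime := by
    refine Finset.filter_congr fun r hr => ?_
    rw [Finset.mem_Ioc] at hr
    constructor
    · exact fun h => h.1
    · intro h
      refine ⟨h, ?_⟩
      have h2 : ((M : ℝ) + 1) ≤ r := by exact_mod_cast hr.1
      have h3 : (p : ℝ) < r := by linarith
      exact_mod_cast h3
  have hnn : nn p A B s = (((Finset.Ioc M N).filter Nat.Prime).card : ℝ) := by
    unfold nn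
    rw [hfil]
  rw [hnn]
  set c := (((Finset.Ioc M N).filter Nat.Prime).card : ℝ) with hc
  have hc0 : 0 ≤ c := Nat.cast_nonneg _
  have hup : Θ ≤ c * l1 := by
    have h2 : Θ ≤ ∑ r ∈ (Finset.Ioc M N).filter Nat.Prime, l1 := by
      refine Finset.sum_le_sum fun r hr => ?_
      rw [Finset.mem_filter, Finset.mem_Ioc] at hr
      have h3 : (r : ℝ) ≤ N := by exact_mod_cast hr.1.2
      have h4 : (0 : ℝ) < r := by exact_mod_cast hr.2.pos
      exact (Real.log_le_log h4 (h3.trans hNb)).trans hB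
    rwa [Finset.sum_const, nsmul_eq_mul] at h2
  have hlow : c * l0 ≤ Θ := by
    have h2 : ∑ r ∈ (Finset.Ioc M N).filter Nat.Prime, l0 ≤ Θ := by
      refine Finset.sum_le_sum fun r hr => ?_
      rw [Finset.mem_filter, Finset.mem_Ioc] at hr
      have h3 : ((M : ℝ) + 1) ≤ r := by exact_mod_cast hr.1.1
      exact hA.trans (Real.log_le_log ha0 (by linarith))
    rwa [Finset.sum_const, nsmul_eq_mul] at h2
  have hE0 : 0 ≤ E := (abs_nonneg _).trans hΘE
  rw [abs_le] at hΘE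
  have c1 : c ≤ ((b - a) + E) / l0 := by
    rw [le_div_iff₀ hl00]
    linarith
  have c2 : ((b - a) - E) / l1 ≤ c := by
    rw [div_le_iff₀ hl10]
    linarith
  have d1 : 1 / l1 ≤ 1 / l := one_div_le_one_div_of_le hl0 h1
  have d2 : 1 / l ≤ 1 / l0 := one_div_le_one_div_of_le hl00 h01
  have hba : 0 ≤ b - a := by linarith
  have f1 := mul_le_mul_of_nonneg_left d1 hba
  have f2 := mul_le_mul_of_nonneg_left d2 hba
  have f3 : E / l1 ≤ E / l0 := div_le_div_of_nonneg_left hE0 hl00 (h01.trans h1)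
  rw [abs_le]
  constructor
  · have e1 : ((b - a) - E) / l1 = (b - a) * (1 / l1) - E / l1 := by ring
    have e2 : (b - a) / l = (b - a) * (1 / l) := by ring
    rw [e2]
    rw [e1] at c2
    linarith
  · have e1 : ((b - a) + E) / l0 = (b - a) * (1 / l0) + E / l0 := by ring
    have e2 : (b - a) / l = (b - a) * (1 / l) := by ring
    rw [e2]
    rw [e1] at c1
    linarith

lemma ev_pow (c : ℝ) (n : ℕ) : ∀ᶠ p : ℕ in atTop, c * Real.log p ^ n ≤ p := by
  have h1 : (fun x : ℝ => Real.log x ^ n) =o[atTop] (fun x : ℝ => x) := Real.isLittleO_pow_log_id_atTop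
  have h2 := h1.comp_tendsto (tendsto_natCast_atTop_atTop (R := ℝ))
  have h3 := h2.bound (show (0 : ℝ) < 1 / (|c| + 1) by positivity)
  filter_upwards [h3, eventually_ge_atTop 1] with p hp hp1
  simp only [Function.comp, Real.norm_eq_abs] at hp
  have hp0 : (0 : ℝ) ≤ p := Nat.cast_nonneg _
  rw [abs_of_nonneg hp0] at hp
  have h4 : |c| + 1 > 0 := by positivity
  calc c * Real.log p ^ n ≤ (|c| + 1) * |Real.log p ^ n| := by
        have : c * Real.log p ^ n ≤ |c| * |Real.log p ^ n| := by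
          rw [← abs_mul]; exact le_abs_self _
        nlinarith [abs_nonneg (Real.log (p : ℝ) ^ n)]
    _ ≤ (|c| + 1) * (1 / (|c| + 1) * p) := by gcongr
    _ = p := by field_simp

lemma ev_log (c : ℝ) : ∀ᶠ p : ℕ in atTop, c ≤ Real.log p :=
  (Real.tendsto_log_atTop.comp tendsto_natCast_atTop_atTop).eventually_ge_atTop c


theorem cnt_asymp {L : ℝ} (hL : 0 < L) (K D : ℕ) : ∃ C : ℝ, 0 < C ∧ ∀ᶠ p : ℕ in atTop,
    ∀ A B : ℕ, A < B → L * p - D * Real.log p ≤ Real.log A → Real.log B ≤ L * p + D * Real.log p →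
    (A : ℝ) ≤ p ^ K * ((B : ℝ) - A) →
    |cnt p A B - ((B : ℝ) - A) / (L * p)| ≤ C * ((B : ℝ) - A) * (Real.log p ^ 3 / p ^ 2) := by
  obtain ⟨C0, hC0, hθ⟩ := Pool.Agent.H442R2.EHI.PntErrAux.thetaU (K + 2)
  set C1 := 4 * C0 * (4 / L) ^ (K + 2) with hC1
  have hC10 : 0 < C1 := by positivity
  set C2 := 4 * (D + 3) / L ^ 2 + C1 + 1 with hC2
  have hC20 : 0 < C2 := by positivity
  refine ⟨C2, hC20, ?_⟩
  filter_upwards [ev_pow ((4 * (D + K + 8 : ℝ)) / L) 2, ev_log 1, ev_log (4 / L),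
    ev_log (16 / L),
    eventually_ge_atTop 3, ev_pow (16 / L) 0] with p h4 h5 h6 h7 hp3 h8 A B hAB hlA hlB hAY
  have hp3' : (3 : ℝ) ≤ p := by exact_mod_cast hp3
  have hp0 : (0 : ℝ) < p := by linarith
  set q := Real.log p with hq
  have hq0 : 0 < q := by linarith
  have hpe : Real.exp q = p := Real.exp_log hp0
  set l := L * p with hl
  have hl0pos : 0 < l := by positivity
  set W := D * q + 3 * q ^ 2 with hW
  have hD0 : (0 : ℝ) ≤ D := Nat.cast_nonneg _
  have hK0 : (0 : ℝ) ≤ K := Nat.cast_nonneg _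
  have hqq : q ≤ q ^ 2 := by nlinarith
  have hbig : 4 * (D + K + 8) * q ^ 2 ≤ l := by
    rw [hl]
    have : 4 * ((D : ℝ) + K + 8) / L * q ^ 2 * L ≤ p * L := by gcongr
    have e : 4 * ((D : ℝ) + K + 8) / L * q ^ 2 * L = 4 * (D + K + 8) * q ^ 2 := by field_simp
    rw [e] at this
    linarith
  have hDq : (D : ℝ) * q ≤ D * q ^ 2 := by gcongr
  have hKq : (K : ℝ) * q ≤ K * q ^ 2 := by gcongr
  have hq2 : 1 ≤ q ^ 2 := one_le_pow₀ h5
  have hDq0 : 0 ≤ (D : ℝ) * q := by positivity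
  have hDq20 : 0 ≤ (D : ℝ) * q ^ 2 := by positivity
  have hKq20 : 0 ≤ (K : ℝ) * q ^ 2 := by positivity
  have hbig' : D * q ^ 2 + K * q ^ 2 + 8 * q ^ 2 ≤ l / 4 := by
    have : 4 * ((D : ℝ) + K + 8) * q ^ 2 = 4 * (D * q ^ 2 + K * q ^ 2 + 8 * q ^ 2) := by ring
    linarith
  have hWl : W ≤ l / 4 := by
    rw [hW]
    linarith
  have hl16 : 16 ≤ l := by
    have : 16 / L * L ≤ p * L := by
      gcongr
      simpa using h8
    rw [div_mul_cancel₀ _ hL.ne'] at this
    rw [hl]; linarith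
  set l0 := l - W with hl0
  set l1 := l + W with hl1
  have hW0 : 0 ≤ W := by positivity
  have hl0half : l / 2 ≤ l0 := by rw [hl0]; linarith
  have hl04 : 4 ≤ l0 := by linarith
  -- the interval
  have hlA0 : 0 < Real.log A := by
    have : (D : ℝ) * q ≤ W := by rw [hW]; linarith
    linarith
  have hA0 : 0 < A := by
    rcases Nat.eq_zero_or_pos A with h | h
    · rw [h] at hlA0; simp at hlA0
    · exact h
  have hA0' : (0 : ℝ) < A := by exact_mod_cast hA0
  have hB0 : 0 < B := by omega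
  have hB0' : (0 : ℝ) < B := by exact_mod_cast hB0
  have hABr : (A : ℝ) < B := by exact_mod_cast hAB
  set Y := (B : ℝ) - A with hY
  have hY0 : 0 < Y := by rw [hY]; linarith
  have hpK1 : (1 : ℝ) ≤ (p : ℝ) ^ K := one_le_pow₀ (by linarith)
  have hBY : (B : ℝ) ≤ 2 * p ^ K * Y := by
    have e1 : (B : ℝ) = A + Y := by rw [hY]; ring
    have e2 : Y ≤ p ^ K * Y := le_mul_of_one_le_left hY0.le hpK1
    rw [e1]
    linarith
  -- `p ^ 2 ≤ Y`
  have hSY : (p : ℝ) ^ 2 ≤ Y := by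
    have e1 : (p : ℝ) ^ 2 * p ^ K ≤ A := by
      rw [← Real.exp_log hA0', ← hpe, ← Real.exp_nat_mul, ← Real.exp_nat_mul, ← Real.exp_add]
      refine Real.exp_le_exp.2 (le_trans ?_ hlA)
      push_cast
      linarith
    have e2 : (p : ℝ) ^ 2 * p ^ K ≤ Y * p ^ K := by linarith
    exact le_of_mul_le_mul_right e2 (by positivity)
  have hcnt : cnt p A B = nn p A B 1 := by
    unfold cnt nn
    rw [Nat.div_one, Nat.div_one]
    congr 2
    refine Finset.filter_congr fun r hr => ?_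
    rw [Finset.mem_Ioc] at hr
    constructor
    · intro h
      refine ⟨h, ?_⟩
      have h2 : (A : ℝ) < r := by exact_mod_cast hr.1
      have h3 : (p : ℝ) ≤ A := by
        rw [← hpe]
        refine (Real.le_log_iff_exp_le hA0').1 ?_
        have : (D : ℝ) * q ≤ W := by rw [hW]; linarith
        linarith
      have h4 : (p : ℝ) < r := by linarith
      exact_mod_cast h4
    · exact fun h => h.1
  have hA1 : l0 ≤ Real.log ((A : ℝ) / (1 : ℕ)) := by
    rw [Nat.cast_one, div_one, hl0, hW]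
    linarith
  have hB1 : Real.log ((B : ℝ) / (1 : ℕ)) ≤ l1 := by
    rw [Nat.cast_one, div_one, hl1, hW]
    linarith
  have hpA : (p : ℝ) < (A : ℝ) / (1 : ℕ) := by
    rw [← hpe]
    refine lt_of_lt_of_le (Real.exp_lt_exp.2 ?_) ((Real.le_log_iff_exp_le (by positivity)).1 hA1)
    linarith
  have h := one_s (U := K + 2) hC0 hθ one_pos hAB.le hl04 (by rw [hl0]; linarith) (by rw [hl1]; linarith) (l := l)
    hA1 hB1 hpA hA0
  rw [hcnt]
  simp only [Nat.cast_one, div_one] at h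
  rw [← hY] at h
  refine h.trans ?_
  have hl1l : l ≤ l1 := by rw [hl1]; linarith
  have e2 : 1 / l0 - 1 / l1 ≤ 4 * (D + 3) / L ^ 2 * (q ^ 2 / p ^ 2) := by
    have g1 : 1 / l0 - 1 / l1 = 2 * W / (l0 * l1) := by
      have : l0 ≠ 0 := by linarith
      have : l1 ≠ 0 := by linarith
      field_simp
      rw [hl1, hl0]; ring
    rw [g1]
    calc 2 * W / (l0 * l1) ≤ 2 * ((D + 3) * q ^ 2) / (l / 2 * l) := by
          have hWD : W ≤ (D + 3) * q ^ 2 := by
            rw [hW]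
            have : ((D : ℝ) + 3) * q ^ 2 = D * q ^ 2 + 3 * q ^ 2 := by ring
            linarith
          refine div_le_div₀ (by positivity) (by linarith) (by positivity) ?_
          exact mul_le_mul hl0half hl1l hl0pos.le (by linarith)
      _ = _ := by rw [hl]; field_simp; ring
  have e3 : 2 * C0 * (B : ℝ) / (l0 / 2) ^ (K + 2) ≤ Y * (C1 / p ^ 2) := by
    calc 2 * C0 * (B : ℝ) / (l0 / 2) ^ (K + 2) ≤
        2 * C0 * (2 * p ^ K * Y) / (l / 4) ^ (K + 2) := by
          refine div_le_div₀ (by positivity) ?_ (by positivity)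
            (pow_le_pow_left₀ (by positivity) (by linarith) _)
          gcongr
      _ = _ := by
          have g1 : (l / 4) ^ (K + 2) = (L / 4) ^ (K + 2) * (p ^ K * p ^ 2) := by
            rw [hl, show L * (p : ℝ) / 4 = (L / 4) * p by ring, mul_pow, pow_add (p : ℝ)]
          have g2 : (4 / L) ^ (K + 2) = 1 / (L / 4) ^ (K + 2) := by
            rw [← one_div_pow, one_div_div]
          rw [g1, hC1, g2]
          have g3 : 0 < (L / 4) ^ (K + 2) := by positivity
          field_simp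
          ring
  have e4 : 1 ≤ Y * (1 / p ^ 2) := by
    rw [mul_one_div, one_le_div (by positivity)]
    exact hSY
  have e5 : (2 * C0 * (B : ℝ) / (l0 / 2) ^ (K + 2) + 1) / l0 ≤ Y * ((C1 + 1) / p ^ 2) := by
    rw [div_le_iff₀ (by linarith)]
    have g1 : 0 ≤ Y * ((C1 + 1) / p ^ 2) := by positivity
    have g2 : Y * ((C1 + 1) / p ^ 2) = Y * (C1 / p ^ 2) + Y * (1 / p ^ 2) := by
      ring
    have g3 : Y * ((C1 + 1) / p ^ 2) ≤ Y * ((C1 + 1) / p ^ 2) * l0 :=
      le_mul_of_one_le_right g1 (by linarith)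
    linarith
  have e6 := mul_le_mul_of_nonneg_left e2 hY0.le
  have hq23 : q ^ 2 ≤ q ^ 3 := pow_le_pow_right₀ h5 (by norm_num)
  have hq3 : 1 ≤ q ^ 3 := one_le_pow₀ h5
  have e7 : Y * ((C1 + 1) / p ^ 2) ≤ Y * ((C1 + 1) * (q ^ 3 / p ^ 2)) := by
    refine mul_le_mul_of_nonneg_left ?_ hY0.le
    rw [mul_div_assoc']
    gcongr
    exact le_mul_of_one_le_right (by positivity) hq3
  have e8 : Y * (4 * (D + 3) / L ^ 2 * (q ^ 2 / p ^ 2)) ≤ Y * (4 * (D + 3) / L ^ 2 * (q ^ 3 / p ^ 2)) := by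
    gcongr
  calc _ ≤ Y * (4 * (D + 3) / L ^ 2 * (q ^ 3 / p ^ 2)) + Y * ((C1 + 1) * (q ^ 3 / p ^ 2)) := by linarith
    _ = _ := by rw [hC2]; ring

end Pool.Agent.Helper92K9.PL
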