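import Pool.Agent.Helper92K9.PL.Reg

set_option autoImplicit false

/-!
# All windows simultaneously
-/

namespace Pool.Agent.Helper92K9.PL

open Finset Filter Topology MeasureTheory
open Pool.Agent.Helper92K9.MP

variable {k : ℕ}

/-- the correlation sum -/
noncomputable def HH (α : ℝ) (G ω : ℕ → ℝ) (c : Fin k → ℝ) {r : ℕ} (s t : Fin r → ℝ) (n : ℕ) : ℝ :=
  (∑ p ∈ Pr 1 n, ∑ q ∈ Tp s t p, ∏ l, gi α G ω c (q l)) / Real.log n

/-- the limit -/
noncomputable def LL (α : ℝ) {r : ℕ} (s t : Fin r → ℝ) : ℝ :=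
  kap α * ∏ i, (kap α * Real.log (t i / s i))

lemma HH_mono (α : ℝ) (G ω : ℕ → ℝ) (c : Fin k → ℝ) {r : ℕ} {s t s' t' : Fin r → ℝ} (hs : ∀ i, 0 < s i)
    (hst : ∀ i, s i < t i) (hs' : ∀ i, 0 < s' i) (hss : ∀ i, s' i ≤ s i) (htt : ∀ i, t i ≤ t' i) (n : ℕ) :
    HH α G ω c s t n ≤ HH α G ω c s' t' n := by
  have hst' : ∀ i, s' i < t' i := fun i => by linarith [hss i, hst i, htt i]
  unfold HH
  refine div_le_div_of_nonneg_right ?_ (Real.log_natCast_nonneg n)
  refine Finset.sum_le_sum fun p _ => ?_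
  refine Finset.sum_le_sum_of_subset_of_nonneg (fun q hq => ?_) fun q _ _ =>
    Finset.prod_nonneg fun l _ => gi_nonneg _ _ _ _ _
  rw [mem_Tp hs hst] at hq
  rw [mem_Tp hs' hst']
  refine ⟨hq.1, hq.2.1, fun i => ?_⟩
  obtain ⟨h1, h2, h3⟩ := hq.2.2 i
  have hp : (0 : ℝ) ≤ p := Nat.cast_nonneg p
  exact ⟨h1, lt_of_le_of_lt (mul_le_mul_of_nonneg_right (hss i) hp) h2,
    h3.trans (mul_le_mul_of_nonneg_right (htt i) hp)⟩

/-- from rational to real windows -/
lemma dens {α : ℝ} (hα : 1 < α) (G ω : ℕ → ℝ) (c : Fin k → ℝ) {r : ℕ}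
    (hQ : ∀ s t : Fin r → ℚ, (∀ i, 0 < s i) → (∀ i, s i < t i) →
      Tendsto (HH α G ω c (fun i => (s i : ℝ)) (fun i => (t i : ℝ))) atTop
        (𝓝 (LL α (fun i => (s i : ℝ)) (fun i => (t i : ℝ))))) {s t : Fin r → ℝ} (hs : ∀ i, 0 < s i)
    (hst : ∀ i, s i < t i) : Tendsto (HH α G ω c s t) atTop (𝓝 (LL α s t)) := by
  have hκ := kap_pos hα
  have ht : ∀ i, 0 < t i := fun i => (hs i).trans (hst i)
  have hlog : ∀ i, 0 < Real.log (t i / s i) := fun i => Real.log_pos ((one_lt_div (hs i)).2 (hst i))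
  set Φ : ℝ → ℝ := fun x => kap α * ∏ i, (kap α * (Real.log (t i / s i) + 2 * x)) with hΦ
  have hΦc : Continuous Φ := by
    simp only [hΦ]
    fun_prop
  have hΦ0 : Φ 0 = LL α s t := by
    simp only [hΦ, LL, mul_zero, add_zero]
  rw [tendsto_order]
  constructor
  · intro b hb
    -- lower bound
    have h1 : ∀ᶠ x in 𝓝 (0 : ℝ), b < Φ (-x) := by
      have : Tendsto (fun x : ℝ => Φ (-x)) (𝓝 0) (𝓝 (Φ (-0))) := (hΦc.comp continuous_neg).tendsto 0
      rw [neg_zero, hΦ0] at this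
      exact this.eventually_const_lt hb
    have h2 : ∀ᶠ x in 𝓝 (0 : ℝ), ∀ i, 2 * x < Real.log (t i / s i) := by
      rw [eventually_all]
      intro i
      have : Tendsto (fun x : ℝ => 2 * x) (𝓝 0) (𝓝 (2 * 0)) := (continuous_const.mul continuous_id).tendsto 0
      rw [mul_zero] at this
      exact this.eventually_lt_const (hlog i)
    obtain ⟨x, ⟨hx1, hx2⟩, hx0⟩ := ((h1.and h2).filter_mono nhdsWithin_le_nhds |>.and
      (self_mem_nhdsWithin (a := (0 : ℝ)) (s := Set.Ioi 0))).exists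
    have hx0 : 0 < x := hx0
    have hex : 1 < Real.exp x := Real.one_lt_exp_iff.2 hx0
    have hs1 : ∀ i, ∃ a : ℚ, s i < a ∧ (a : ℝ) < s i * Real.exp x := fun i =>
      exists_rat_btwn (by have := hs i; nlinarith)
    have ht1 : ∀ i, ∃ a : ℚ, t i * Real.exp (-x) < a ∧ (a : ℝ) < t i := fun i =>
      exists_rat_btwn (by
        have := ht i
        have h3 : Real.exp (-x) < 1 := Real.exp_lt_one_iff.2 (by linarith)
        nlinarith)
    choose s1 hs1 using hs1
    choose t1 ht1 using ht1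
    have hs1p : ∀ i, (0 : ℝ) < s1 i := fun i => (hs i).trans (hs1 i).1
    have hst1 : ∀ i, (s1 i : ℝ) < t1 i := fun i => by
      have h3 : s i * Real.exp x < t i * Real.exp (-x) := by
        have h4 := hx2 i
        rw [Real.lt_log_iff_exp_lt (div_pos (ht i) (hs i)), lt_div_iff₀ (hs i)] at h4
        have e : Real.exp (2 * x) = Real.exp x * Real.exp x := by rw [← Real.exp_add]; ring_nf
        rw [e] at h4
        have h5 : Real.exp x * Real.exp (-x) = 1 := by rw [← Real.exp_add]; simp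
        have h6 := Real.exp_pos (-x)
        calc s i * Real.exp x = (Real.exp x * Real.exp x * s i) * Real.exp (-x) := by
              rw [show Real.exp x * Real.exp x * s i * Real.exp (-x) =
                s i * Real.exp x * (Real.exp x * Real.exp (-x)) by ring, h5, mul_one]
          _ < t i * Real.exp (-x) := by gcongr
      linarith [(hs1 i).2, (ht1 i).1]
    have hT := hQ s1 t1 (fun i => by exact_mod_cast hs1p i) (fun i => by exact_mod_cast hst1 i)
    have hlim : b < LL α (fun i => (s1 i : ℝ)) (fun i => (t1 i : ℝ)) := by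
      refine hx1.trans_le ?_
      simp only [hΦ, LL]
      refine mul_le_mul_of_nonneg_left ?_ hκ.le
      refine Finset.prod_le_prod (fun i _ => ?_) fun i _ => ?_
      · have := hx2 i
        exact mul_nonneg hκ.le (by linarith)
      · refine mul_le_mul_of_nonneg_left ?_ hκ.le
        have h3 : (t i * Real.exp (-x)) / (s i * Real.exp x) ≤ (t1 i : ℝ) / s1 i :=
          div_le_div₀ ((hs1p i).trans (hst1 i)).le (ht1 i).1.le (hs1p i) (hs1 i).2.le
        have h4 : Real.log ((t i * Real.exp (-x)) / (s i * Real.exp x)) = Real.log (t i / s i) + 2 * (-x) := by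
          rw [Real.log_div (mul_pos (ht i) (Real.exp_pos _)).ne' (mul_pos (hs i) (Real.exp_pos _)).ne',
            Real.log_mul (ht i).ne' (Real.exp_pos _).ne', Real.log_mul (hs i).ne' (Real.exp_pos _).ne',
            Real.log_exp, Real.log_exp, Real.log_div (ht i).ne' (hs i).ne']
          ring
        rw [← h4]
        exact Real.log_le_log (div_pos (mul_pos (ht i) (Real.exp_pos _)) (mul_pos (hs i) (Real.exp_pos _))) h3
    filter_upwards [hT.eventually_const_lt hlim] with n hn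
    exact hn.trans_le (HH_mono α G ω c hs1p hst1 hs (fun i => (hs1 i).1.le) (fun i => (ht1 i).2.le) n)
  · intro b hb
    have h1 : ∀ᶠ x in 𝓝 (0 : ℝ), Φ x < b := by
      have : Tendsto Φ (𝓝 0) (𝓝 (Φ 0)) := hΦc.tendsto 0
      rw [hΦ0] at this
      exact this.eventually_lt_const hb
    obtain ⟨x, hx1, hx0⟩ := (h1.filter_mono nhdsWithin_le_nhds |>.and
      (self_mem_nhdsWithin (a := (0 : ℝ)) (s := Set.Ioi 0))).exists
    have hx0 : 0 < x := hx0
    have hex : 1 < Real.exp x := Real.one_lt_exp_iff.2 hx0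
    have hs1 : ∀ i, ∃ a : ℚ, s i * Real.exp (-x) < a ∧ (a : ℝ) < s i := fun i =>
      exists_rat_btwn (by
        have := hs i
        have h3 : Real.exp (-x) < 1 := Real.exp_lt_one_iff.2 (by linarith)
        nlinarith)
    have ht1 : ∀ i, ∃ a : ℚ, t i < a ∧ (a : ℝ) < t i * Real.exp x := fun i =>
      exists_rat_btwn (by have := ht i; nlinarith)
    choose s1 hs1 using hs1
    choose t1 ht1 using ht1
    have hs1p : ∀ i, (0 : ℝ) < s1 i := fun i => (mul_pos (hs i) (Real.exp_pos _)).trans (hs1 i).1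
    have hst1 : ∀ i, (s1 i : ℝ) < t1 i := fun i => by linarith [(hs1 i).2, (ht1 i).1, hst i]
    have hT := hQ s1 t1 (fun i => by exact_mod_cast hs1p i) (fun i => by exact_mod_cast hst1 i)
    have hlim : LL α (fun i => (s1 i : ℝ)) (fun i => (t1 i : ℝ)) < b := by
      refine lt_of_le_of_lt ?_ hx1
      simp only [hΦ, LL]
      refine mul_le_mul_of_nonneg_left ?_ hκ.le
      refine Finset.prod_le_prod (fun i _ => ?_) fun i _ => ?_
      · exact mul_nonneg hκ.le (Real.log_pos ((one_lt_div (hs1p i)).2 (hst1 i))).le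
      · refine mul_le_mul_of_nonneg_left ?_ hκ.le
        have h3 : (t1 i : ℝ) / s1 i ≤ (t i * Real.exp x) / (s i * Real.exp (-x)) :=
          div_le_div₀ (mul_pos (ht i) (Real.exp_pos _)).le (ht1 i).2.le (mul_pos (hs i) (Real.exp_pos _)) (hs1 i).1.le
        have h4 : Real.log ((t i * Real.exp x) / (s i * Real.exp (-x))) = Real.log (t i / s i) + 2 * x := by
          rw [Real.log_div (mul_pos (ht i) (Real.exp_pos _)).ne' (mul_pos (hs i) (Real.exp_pos _)).ne',
            Real.log_mul (ht i).ne' (Real.exp_pos _).ne', Real.log_mul (hs i).ne' (Real.exp_pos _).ne',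
            Real.log_exp, Real.log_exp, Real.log_div (ht i).ne' (hs i).ne']
          ring
        rw [← h4]
        exact Real.log_le_log (div_pos ((hs1p i).trans (hst1 i)) (hs1p i)) h3
    filter_upwards [hT.eventually_lt_const hlim] with n hn
    exact lt_of_le_of_lt (HH_mono α G ω c hs hst hs1p (fun i => (hs1 i).2.le) (fun i => (ht1 i).1.le) n) hn

/-- all the correlations up to the order `k / 2` are those of a Poisson process -/
def Pois (α : ℝ) (G ω : ℕ → ℝ) (c : Fin k → ℝ) : Prop :=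
  ∀ r : ℕ, 2 * (r + 1) ≤ k → ∀ s t : Fin r → ℝ, (∀ i, 0 < s i) → (∀ i, s i < t i) →
    Tendsto (HH α G ω c s t) atTop (𝓝 (LL α s t))

theorem ae_pois {α : ℝ} {G ω : ℕ → ℝ} {D : ℕ} {u v : Fin k → ℝ} (hF : Fam k α G ω D u v) :
    ∀ᵐ c ∂(volume.restrict (Bx u v)), Pois α G ω c := by
  have h : ∀ r : ℕ, ∀ st : (Fin r → ℚ) × (Fin r → ℚ), ∀ᵐ c ∂(volume.restrict (Bx u v)), 2 * (r + 1) ≤ k →
      (∀ i, 0 < st.1 i) → (∀ i, st.1 i < st.2 i) →
      Tendsto (HH α G ω c (fun i => (st.1 i : ℝ)) (fun i => (st.2 i : ℝ))) atTop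
        (𝓝 (LL α (fun i => (st.1 i : ℝ)) (fun i => (st.2 i : ℝ)))) := by
    intro r st
    by_cases hh : 2 * (r + 1) ≤ k ∧ (∀ i, 0 < st.1 i) ∧ ∀ i, st.1 i < st.2 i
    · obtain ⟨h1, h2, h3⟩ := hh
      filter_upwards [ae_corr hF h1 (s := fun i => (st.1 i : ℝ)) (t := fun i => (st.2 i : ℝ))
        (fun i => by exact_mod_cast h2 i) (fun i => by exact_mod_cast h3 i)] with c hc _ _ _
      exact hc
    · refine Eventually.of_forall fun c h1 h2 h3 => absurd ⟨h1, h2, h3⟩ hh
  have h2 : ∀ᵐ c ∂(volume.restrict (Bx u v)), ∀ r : ℕ, ∀ st : (Fin r → ℚ) × (Fin r → ℚ), 2 * (r + 1) ≤ k →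
      (∀ i, 0 < st.1 i) → (∀ i, st.1 i < st.2 i) →
      Tendsto (HH α G ω c (fun i => (st.1 i : ℝ)) (fun i => (st.2 i : ℝ))) atTop
        (𝓝 (LL α (fun i => (st.1 i : ℝ)) (fun i => (st.2 i : ℝ)))) :=
    ae_all_iff.2 fun r => ae_all_iff.2 fun st => h r st
  filter_upwards [h2] with c hc r hr s t hs hst
  exact dens hF.hα G ω c (fun s t h3 h4 => hc r (s, t) hr h3 h4) hs hst

lemma Pois.good {α : ℝ} {G ω : ℕ → ℝ} {c : Fin k → ℝ} (h : Pois α G ω c) {t : ℝ} (ht : 1 < t) {N : ℕ}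
    (hN : 2 * N ≤ k) : Good α G ω t N c := by
  intro r hr
  have h1 := h r (by omega) (fun _ => 1) (fun _ => t) (fun _ => one_pos) (fun _ => ht)
  unfold LL at h1
  simp only [div_one, Finset.prod_const, Finset.card_univ, Fintype.card_fin] at h1
  refine h1.congr fun n => ?_
  unfold HH
  simp only [sum_Tp_desc α G ω c ht]

end Pool.Agent.Helper92K9.PL
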