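import Pool.Agent.Helper92K9.PL.Tup

set_option autoImplicit false

/-!
# The indices of a window and the sum of their reciprocals
-/

namespace Pool.Agent.Helper92K9.PL

open Finset Filter Topology MeasureTheory

/-- the indices -/
def Ix (m : ℕ) : Prop := 2 ≤ m

instance : DecidablePred Ix := fun m => inferInstanceAs (Decidable (2 ≤ m))

/-- the indices of the window `(u, v]` -/
noncomputable def Pr (u v : ℝ) : Finset ℕ := (Finset.Ioc ⌊u⌋₊ ⌊v⌋₊).filter Ix

lemma mem_Pr {u v : ℝ} (hu : 0 ≤ u) (hv : 0 ≤ v) {p : ℕ} :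
    p ∈ Pr u v ↔ Ix p ∧ u < p ∧ (p : ℝ) ≤ v := by
  unfold Pr
  rw [Finset.mem_filter, Finset.mem_Ioc, Nat.floor_lt hu, Nat.le_floor_iff hv]
  tauto

lemma sum_inv {M N : ℕ} (h : M ≤ N) :
    ∑ p ∈ Finset.Ioc M N, xx p = (harmonic N : ℝ) - (harmonic M : ℝ) := by
  induction N, h using Nat.le_induction with
  | base => simp
  | succ N hN ih =>
    rw [Finset.sum_Ioc_succ_top hN, ih, harmonic_succ]
    unfold xx
    push_cast
    rw [one_div]
    ring

/-- the sum of the reciprocals over a window -/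
lemma mertens {a b : ℝ} (ha : 0 < a) (hab : a < b) :
    Tendsto (fun z : ℝ => ∑ p ∈ Pr (a * z) (b * z), xx p) atTop (𝓝 (Real.log (b / a))) := by
  have hb : 0 < b := ha.trans hab
  have hfa : Tendsto (fun z : ℝ => ⌊a * z⌋₊) atTop atTop :=
    tendsto_nat_floor_atTop.comp (tendsto_id.const_mul_atTop ha)
  have hfb : Tendsto (fun z : ℝ => ⌊b * z⌋₊) atTop atTop :=
    tendsto_nat_floor_atTop.comp (tendsto_id.const_mul_atTop hb)
  have h1 := Real.tendsto_harmonic_sub_log.comp hfa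
  have h2 := Real.tendsto_harmonic_sub_log.comp hfb
  have h3 : Tendsto (fun z : ℝ => Real.log ⌊b * z⌋₊ - Real.log ⌊a * z⌋₊) atTop
      (𝓝 (Real.log b - Real.log a)) := by
    have ha' : Tendsto (fun z : ℝ => (⌊a * z⌋₊ : ℝ) / z) atTop (𝓝 a) := tendsto_nat_floor_mul_div_atTop ha.le
    have hb' : Tendsto (fun z : ℝ => (⌊b * z⌋₊ : ℝ) / z) atTop (𝓝 b) := tendsto_nat_floor_mul_div_atTop hb.le
    have h4 := (hb'.log hb.ne').sub (ha'.log ha.ne')
    refine h4.congr' ?_
    filter_upwards [hfa.eventually_gt_atTop 0, hfb.eventually_gt_atTop 0, eventually_gt_atTop 0]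
      with z g1 g2 g3
    have g1' : (0 : ℝ) < ⌊a * z⌋₊ := by exact_mod_cast g1
    have g2' : (0 : ℝ) < ⌊b * z⌋₊ := by exact_mod_cast g2
    rw [Real.log_div g1'.ne' g3.ne', Real.log_div g2'.ne' g3.ne']
    ring
  rw [Real.log_div hb.ne' ha.ne']
  have h5 := (h2.sub h1).add h3
  rw [sub_self, zero_add] at h5
  refine h5.congr' ?_
  filter_upwards [eventually_gt_atTop 0, hfa.eventually_ge_atTop 2] with z hz hz2
  unfold Pr
  rw [Finset.filter_true_of_mem (fun m hm => by
    rw [Finset.mem_Ioc] at hm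
    exact hz2.trans hm.1.le)]
  rw [sum_inv (Nat.floor_le_floor (mul_le_mul_of_nonneg_right hab.le hz.le))]
  simp only [Function.comp]
  ring

lemma log_nat_tendsto : Tendsto (fun n : ℕ => Real.log (n : ℝ)) atTop atTop :=
  Real.tendsto_log_atTop.comp tendsto_natCast_atTop_atTop

end Pool.Agent.Helper92K9.PL
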