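import Pool.Agent.Helper92K9.PL.AE

set_option autoImplicit false

/-!
# From blocks to counting functions
-/

namespace Pool.Agent.Helper92K9.PL

open Finset Filter Topology MeasureTheory
open Pool.Agent.Helper92K9.MP

variable {k : ℕ}

lemma sum_Pr_add {u v w : ℝ} (hu : 0 ≤ u) (huv : u ≤ v) (hvw : v ≤ w) (g : ℕ → ℝ) :
    ∑ p ∈ Pr u w, g p = ∑ p ∈ Pr u v, g p + ∑ p ∈ Pr v w, g p := by
  classical
  have h1 : Pr u w = Pr u v ∪ Pr v w := by
    ext p
    rw [Finset.mem_union, mem_Pr hu (by linarith), mem_Pr hu (by linarith), mem_Pr (by linarith) (by linarith)]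
    constructor
    · rintro ⟨h2, h3, h4⟩
      rcases le_or_gt (p : ℝ) v with h | h
      · exact Or.inl ⟨h2, h3, h⟩
      · exact Or.inr ⟨h2, h, h4⟩
    · rintro (⟨h2, h3, h4⟩ | ⟨h2, h3, h4⟩)
      · exact ⟨h2, h3, by linarith⟩
      · exact ⟨h2, by linarith, h4⟩
  have h2 : Disjoint (Pr u v) (Pr v w) := by
    rw [Finset.disjoint_left]
    intro p hp hp'
    rw [mem_Pr hu (by linarith)] at hp
    rw [mem_Pr (by linarith) (by linarith)] at hp'
    linarith [hp.2.2, hp'.2.1]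
  rw [h1, Finset.sum_union h2]

lemma sum_blocks (g : ℕ → ℝ) (J : ℕ) :
    ∑ j ∈ Finset.range J, ∑ p ∈ Pr (Real.exp j) (Real.exp (j + 1)), g p = ∑ p ∈ Pr 1 (Real.exp J), g p := by
  induction J with
  | zero =>
    simp only [Finset.range_zero, Finset.sum_empty, Nat.cast_zero, Real.exp_zero]
    have : Pr 1 1 = ∅ := by
      rw [Finset.eq_empty_iff_forall_notMem]
      intro p hp
      rw [mem_Pr zero_le_one zero_le_one] at hp
      linarith [hp.2.1, hp.2.2]
    rw [this, Finset.sum_empty]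
  | succ J ih =>
    rw [Finset.sum_range_succ, ih]
    push_cast
    rw [← sum_Pr_add zero_le_one (Real.one_le_exp (Nat.cast_nonneg J)) (Real.exp_le_exp.2 (by linarith))]

lemma sum_Pr_mono {g : ℕ → ℝ} (hg : ∀ p, 0 ≤ g p) {x y : ℝ} (hx : 0 ≤ x) (hxy : x ≤ y) :
    ∑ p ∈ Pr 1 x, g p ≤ ∑ p ∈ Pr 1 y, g p := by
  refine Finset.sum_le_sum_of_subset_of_nonneg (fun p hp => ?_) fun p _ _ => hg p
  rw [mem_Pr zero_le_one hx] at hp
  rw [mem_Pr zero_le_one (hx.trans hxy)]
  exact ⟨hp.1, hp.2.1, hp.2.2.trans hxy⟩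

lemma interp {g : ℕ → ℝ} (hg : ∀ p, 0 ≤ g p) {a : ℝ}
    (h : Tendsto (fun J : ℕ => (∑ j ∈ Finset.range J, ∑ p ∈ Pr (Real.exp j) (Real.exp (j + 1)), g p) / (J : ℝ))
      atTop (𝓝 a)) :
    Tendsto (fun n : ℕ => (∑ p ∈ Pr 1 n, g p) / Real.log n) atTop (𝓝 a) := by
  simp only [sum_blocks] at h
  set F : ℝ → ℝ := fun x => ∑ p ∈ Pr 1 x, g p with hF
  have hF0 : ∀ x, 0 ≤ F x := fun x => Finset.sum_nonneg fun p _ => hg p
  -- the block of `n`
  set j : ℕ → ℕ := fun n => ⌊Real.log n⌋₊ with hj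
  have hjinf : Tendsto j atTop atTop :=
    tendsto_nat_floor_atTop.comp (Real.tendsto_log_atTop.comp tendsto_natCast_atTop_atTop)
  have hratio1 : Tendsto (fun J : ℕ => ((J : ℝ) + 1) / J) atTop (𝓝 1) := by
    have h1 : Tendsto (fun J : ℕ => 1 + 1 / (J : ℝ)) atTop (𝓝 (1 + 0)) :=
      tendsto_const_nhds.add tendsto_one_div_atTop_nhds_zero_nat
    rw [add_zero] at h1
    refine h1.congr' ?_
    filter_upwards [eventually_ge_atTop 1] with J hJ
    have : (0 : ℝ) < J := by exact_mod_cast hJ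
    field_simp
  have hup : Tendsto (fun J : ℕ => F (Real.exp ((J + 1 : ℕ) : ℝ)) / J) atTop (𝓝 a) := by
    have h1 := (h.comp (tendsto_add_atTop_nat 1)).mul hratio1
    rw [mul_one] at h1
    refine h1.congr' ?_
    filter_upwards [eventually_ge_atTop 1] with J hJ
    have : (0 : ℝ) < J := by exact_mod_cast hJ
    simp only [Function.comp, hF]
    push_cast
    field_simp
  have hlow : Tendsto (fun J : ℕ => F (Real.exp (J : ℝ)) / ((J : ℝ) + 1)) atTop (𝓝 a) := by
    have h1 := h.mul (hratio1.inv₀ one_ne_zero)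
    rw [inv_one, mul_one] at h1
    refine h1.congr' ?_
    filter_upwards [eventually_ge_atTop 1] with J hJ
    have : (0 : ℝ) < J := by exact_mod_cast hJ
    simp only [hF]
    field_simp
  refine tendsto_of_tendsto_of_tendsto_of_le_of_le' (hlow.comp hjinf) (hup.comp hjinf) ?_ ?_
  · filter_upwards [eventually_ge_atTop 3] with n hn
    have hn3 : (3 : ℝ) ≤ n := by exact_mod_cast hn
    have hn0 : (0 : ℝ) < n := by linarith
    have hlog : 0 < Real.log n := Real.log_pos (by linarith)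
    have h1 : (j n : ℝ) ≤ Real.log n := Nat.floor_le hlog.le
    have h2 : Real.log n < (j n : ℝ) + 1 := Nat.lt_floor_add_one _
    simp only [Function.comp]
    refine div_le_div₀ (hF0 _) ?_ hlog h2.le
    refine sum_Pr_mono hg (Real.exp_pos _).le ?_
    rw [← Real.le_log_iff_exp_le hn0]
    exact h1
  · filter_upwards [eventually_ge_atTop 3] with n hn
    have hn3 : (3 : ℝ) ≤ n := by exact_mod_cast hn
    have hn0 : (0 : ℝ) < n := by linarith
    have hlog : 1 ≤ Real.log n := by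
      rw [Real.le_log_iff_exp_le hn0]
      have := Real.exp_one_lt_d9
      linarith
    have h1 : (j n : ℝ) ≤ Real.log n := Nat.floor_le (by linarith)
    have h2 : Real.log n < (j n : ℝ) + 1 := Nat.lt_floor_add_one _
    have h3 : 1 ≤ j n := Nat.le_floor (by rw [Nat.cast_one]; exact hlog)
    have h4 : (0 : ℝ) < j n := by exact_mod_cast h3
    simp only [Function.comp]
    refine div_le_div₀ (hF0 _) ?_ h4 h1
    refine sum_Pr_mono hg hn0.le ?_
    rw [← Real.log_le_iff_le_exp hn0]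
    push_cast
    exact h2.le

/-- the number of exponents in `(s p, t p]` -/
noncomputable def KK (α : ℝ) (G ω : ℕ → ℝ) (c : Fin k → ℝ) (s t : ℝ) (p : ℕ) : ℕ :=
  open Classical in ((Pr (s * p) (t * p)).filter fun p => ex α G ω c p).card

/-- the sum over the tuples with the first entry `p` -/
lemma sum_Tp_desc (α : ℝ) (G ω : ℕ → ℝ) (c : Fin k → ℝ) {t : ℝ} (ht : 1 < t) (r p : ℕ) :
    ∑ q ∈ Tp (fun _ : Fin r => (1 : ℝ)) (fun _ => t) p, ∏ l, gi α G ω c (q l) =
      gi α G ω c p * ((KK α G ω c 1 t p).descFactorial r : ℝ) := by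
  classical
  set W := Pr (1 * (p : ℝ)) (t * p) with hW
  have h1 : ∑ q' ∈ (Fintype.piFinset fun _ : Fin r => W).filter (fun q => Function.Injective q),
      ∏ l, gi α G ω c (q' l) = ((KK α G ω c 1 t p).descFactorial r : ℝ) := by
    have h2 := YY_card α G ω ((Fintype.piFinset fun _ : Fin r => W).filter (fun q => Function.Injective q)) c
    unfold YY at h2
    rw [h2]
    unfold KK
    rw [← card_inj]
    congr 2
    ext q
    simp only [Finset.mem_filter, Fintype.mem_piFinset]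
    constructor
    · rintro ⟨⟨h1, h2⟩, h3⟩
      exact ⟨fun i => ⟨h1 i, h3 i⟩, h2⟩
    · rintro ⟨h1, h2⟩
      exact ⟨⟨fun i => (h1 i).1, h2⟩, fun i => (h1 i).2⟩
  rw [← h1, Finset.mul_sum]
  symm
  refine Finset.sum_bij (fun q' _ => (Fin.cons p q' : Fin (r + 1) → ℕ)) ?_ ?_ ?_ ?_
  · intro q' hq'
    rw [Finset.mem_filter, Fintype.mem_piFinset] at hq'
    rw [mem_Tp (fun _ => one_pos) (fun _ => ht)]
    have h3 : ∀ i, Ix (q' i) ∧ 1 * (p : ℝ) < q' i ∧ (q' i : ℝ) ≤ t * p := fun i =>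
      (mem_Pr (by positivity) (by positivity)).1 (hq'.1 i)
    refine ⟨?_, by simp, fun i => by simpa using h3 i⟩
    rw [Fin.cons_injective_iff]
    refine ⟨?_, hq'.2⟩
    rintro ⟨i, hi⟩
    have := (h3 i).2.1
    rw [hi, one_mul] at this
    exact lt_irrefl _ this
  · intro q' _ q'' _ h
    exact (Fin.cons_injective2 h).2
  · intro q hq
    rw [mem_Tp (fun _ => one_pos) (fun _ => ht)] at hq
    refine ⟨Fin.tail q, ?_, ?_⟩
    · rw [Finset.mem_filter, Fintype.mem_piFinset]
      refine ⟨fun i => (mem_Pr (by positivity) (by positivity)).2 (hq.2.2 i), fun a b h => ?_⟩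
      have := hq.1 h
      exact Fin.succ_injective _ this
    · rw [← hq.2.1]
      exact Fin.cons_self_tail q
  · intro q' _
    rw [Fin.prod_univ_succ]
    simp

end Pool.Agent.Helper92K9.PL
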