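import Pool.Agent.Helper92K9.PL.Dens
import Pool.Agent.Helper92K9.PL.Ser

set_option autoImplicit false

/-!
# Random power series: all the correlations at the same time
-/

namespace Pool.Agent.Helper92K9.PL

open Finset Filter Topology MeasureTheory
open Pool.Agent.Helper92K9.MP
open Pool.Agent.Helper92K9.Ser (ae_series)

variable {k : ℕ}

lemma Ix.two_le {p : ℕ} (h : Ix p) : 2 ≤ p := h

/-- the truncation to `[0, 1]` -/
noncomputable def cl (t : ℝ) : ℝ := max 0 (min 1 t)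

lemma cl_nonneg (t : ℝ) : 0 ≤ cl t := le_max_left _ _
lemma cl_le_one (t : ℝ) : cl t ≤ 1 := max_le zero_le_one (min_le_left _ _)
lemma cl_eq {t : ℝ} (h : t ∈ Set.Icc (0 : ℝ) 1) : cl t = t := by
  unfold cl
  rw [min_eq_right h.2, max_eq_right h.1]
lemma measurable_cl : Measurable cl := measurable_const.max (measurable_const.min measurable_id)

lemma summable_tail (k : ℕ) {y : ℕ → ℝ} (hy : ∀ j, y j ∈ Set.Icc (0 : ℝ) 1) {p : ℕ} (hp : 2 ≤ p) :
    Summable fun j : ℕ => y j / (p : ℝ) ^ (k + j) := by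
  have hp' : (2 : ℝ) ≤ p := by exact_mod_cast hp
  refine Summable.of_nonneg_of_le (fun j => div_nonneg (hy j).1 (by positivity)) (fun j => ?_)
    (summable_geometric_of_lt_one (r := (1 / 2 : ℝ)) (by norm_num) (by norm_num))
  rw [div_le_iff₀ (by positivity)]
  calc y j ≤ 1 := (hy j).2
    _ = (1 / 2) ^ j * 2 ^ j := by rw [← mul_pow]; norm_num
    _ ≤ (1 / 2) ^ j * (p : ℝ) ^ (k + j) := by
        refine mul_le_mul_of_nonneg_left ?_ (by positivity)
        calc (2 : ℝ) ^ j ≤ (p : ℝ) ^ j := pow_le_pow_left₀ (by norm_num) hp' j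
          _ ≤ (p : ℝ) ^ (k + j) := pow_le_pow_right₀ (by linarith) (by omega)

lemma tail_le (k : ℕ) {y : ℕ → ℝ} (hy : ∀ j, y j ∈ Set.Icc (0 : ℝ) 1) {p : ℕ} (hp : 2 ≤ p) :
    ∑' j : ℕ, y j / (p : ℝ) ^ (k + j) ≤ 2 := by
  have hp' : (2 : ℝ) ≤ p := by exact_mod_cast hp
  calc ∑' j : ℕ, y j / (p : ℝ) ^ (k + j) ≤ ∑' j : ℕ, (1 / 2 : ℝ) ^ j := by
        refine (summable_tail k hy hp).tsum_le_tsum (fun j => ?_)
          (summable_geometric_of_lt_one (by norm_num) (by norm_num))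
        rw [div_le_iff₀ (by positivity)]
        calc y j ≤ 1 := (hy j).2
          _ = (1 / 2) ^ j * 2 ^ j := by rw [← mul_pow]; norm_num
          _ ≤ (1 / 2) ^ j * (p : ℝ) ^ (k + j) := by
              refine mul_le_mul_of_nonneg_left ?_ (by positivity)
              calc (2 : ℝ) ^ j ≤ (p : ℝ) ^ j := pow_le_pow_left₀ (by norm_num) hp' j
                _ ≤ (p : ℝ) ^ (k + j) := pow_le_pow_right₀ (by linarith) (by omega)
    _ = 2 := tsum_geometric_two

/-- the tail of the series -/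
noncomputable def tl (k : ℕ) (y : ℕ → ℝ) (p : ℕ) : ℝ :=
  if 2 ≤ p then ∑' j : ℕ, cl (y j) / (p : ℝ) ^ (k + j) else 0

lemma cl_mem (y : ℕ → ℝ) (j : ℕ) : cl (y j) ∈ Set.Icc (0 : ℝ) 1 := ⟨cl_nonneg _, cl_le_one _⟩

lemma tl_nonneg (k : ℕ) (y : ℕ → ℝ) (p : ℕ) : 0 ≤ tl k y p := by
  unfold tl
  split_ifs
  · exact tsum_nonneg fun j => div_nonneg (cl_nonneg _) (by positivity)
  · exact le_rfl

lemma tl_le (k : ℕ) (y : ℕ → ℝ) (p : ℕ) : tl k y p ≤ 2 := by
  unfold tl
  split_ifs with h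
  · exact tail_le k (fun j => cl_mem y j) h
  · norm_num

lemma measurable_tl (k p : ℕ) : Measurable fun y : ℕ → ℝ => tl k y p := by
  unfold tl
  by_cases h : 2 ≤ p
  · simp only [if_pos h]
    refine measurable_of_tendsto_metrizable (f := fun n (y : ℕ → ℝ) =>
      ∑ j ∈ Finset.range n, cl (y j) / (p : ℝ) ^ (k + j)) (fun n => ?_) (tendsto_pi_nhds.2 fun y => ?_)
    · exact Finset.measurable_fun_sum _ fun j _ => (measurable_cl.comp (measurable_pi_apply j)).div_const _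
    · exact (summable_tail k (fun j => cl_mem y j) h).hasSum.tendsto_sum_nat
  · simp only [if_neg h]
    exact measurable_const

/-- the amplitude of a series -/
noncomputable def ampS (G ω : ℕ → ℝ) (x : ℕ → ℝ) (p : ℕ) : ℝ := G p + ω p * ∑' j : ℕ, x j / (p : ℝ) ^ j

/-- the part of the amplitude that does not depend on the first `k` coefficients -/
noncomputable def Gt (G ω : ℕ → ℝ) (k : ℕ) (y : ℕ → ℝ) (p : ℕ) : ℝ := G p + ω p * tl k y p

/-- the weight of the first `k` coefficients -/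
noncomputable def ωt (ω : ℕ → ℝ) (k p : ℕ) : ℝ := ω p / (p : ℝ) ^ (k - 1)

lemma ampS_eq (G ω : ℕ → ℝ) {x : ℕ → ℝ} (hx : ∀ j, x j ∈ Set.Icc (0 : ℝ) 1) {k : ℕ} (hk : 0 < k) {p : ℕ}
    (hp : 2 ≤ p) : ampS G ω x p = amp (Gt G ω k fun j => x (k + j)) (ωt ω k) (fun i : Fin k => x (i.rev : ℕ)) p := by
  have hp' : (0 : ℝ) < p := by exact_mod_cast (by omega : 0 < p)
  have h0 : Summable fun j : ℕ => x j / (p : ℝ) ^ j := by
    have := summable_tail 0 hx hp
    simpa using this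
  have h1 := h0.sum_add_tsum_nat_add k
  have h2 : ∑' j : ℕ, x (j + k) / (p : ℝ) ^ (j + k) = tl k (fun j => x (k + j)) p := by
    unfold tl
    rw [if_pos hp]
    refine tsum_congr fun j => ?_
    rw [cl_eq (hx _), add_comm j k]
  have h3 : ωt ω k p * ∑ i : Fin k, x (i.rev : ℕ) * (p : ℝ) ^ (i : ℕ) =
      ω p * ∑ j ∈ Finset.range k, x j / (p : ℝ) ^ j := by
    unfold ωt
    rw [div_mul_eq_mul_div, mul_div_assoc]
    congr 1
    rw [Finset.sum_div, ← Fin.sum_univ_eq_sum_range (fun j => x j / (p : ℝ) ^ j) k]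
    rw [← Equiv.sum_comp Fin.revPerm]
    refine Finset.sum_congr rfl fun i _ => ?_
    have e1 : ((Fin.revPerm i : Fin k) : ℕ) = k - (i + 1) := by simp [Fin.val_rev]
    have e2 : (((Fin.revPerm i : Fin k).rev : Fin k) : ℕ) = i := by simp
    rw [e2, e1]
    have hi := i.2
    rw [div_eq_div_iff (by positivity) (by positivity), mul_assoc, ← pow_add]
    congr 2
    omega
  unfold ampS amp
  rw [h3, ← h1, h2]
  unfold Gt
  ring

lemma HH_congr {k' : ℕ} (α : ℝ) (G ω G' ω' : ℕ → ℝ) (c : Fin k → ℝ) (c' : Fin k' → ℝ)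
    (h : ∀ p, 2 ≤ p → amp G ω c p = amp G' ω' c' p) {r : ℕ} {s t : Fin r → ℝ} (hs : ∀ i, 0 < s i)
    (hst : ∀ i, s i < t i) (n : ℕ) : HH α G ω c s t n = HH α G' ω' c' s t n := by
  unfold HH
  congr 1
  refine Finset.sum_congr rfl fun p hp => Finset.sum_congr rfl fun q hq => Finset.prod_congr rfl fun l _ => ?_
  have hq' := (mem_Tp hs hst).1 hq
  have hl : 2 ≤ q l := by
    refine Fin.cases ?_ (fun i => ?_) l
    · rw [hq'.2.1]
      exact ((mem_Pr zero_le_one (Nat.cast_nonneg n)).1 hp).1.two_le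
    · exact (hq'.2.2 i).1.two_le
  unfold gi
  rw [h _ hl]

lemma measurable_HH (α : ℝ) (G ω : ℕ → ℝ) (k : ℕ) {r : ℕ} (s t : Fin r → ℝ) (n : ℕ) :
    Measurable fun z : (ℕ → ℝ) × (Fin k → ℝ) =>
      HH α (Gt G ω k z.1) (ωt ω k) (fun i : Fin k => z.2 i.rev) s t n := by
  unfold HH
  refine Measurable.div_const ?_ _
  refine Finset.measurable_fun_sum _ fun p _ => Finset.measurable_fun_sum _ fun q _ =>
    Finset.measurable_fun_prod _ fun l _ => ?_
  unfold gi
  refine (measurable_phi (q l)).comp (Measurable.mul_const ?_ _)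
  unfold amp
  refine Measurable.add ?_ (Measurable.const_mul ?_ _)
  · unfold Gt
    exact (((measurable_tl k (q l)).comp measurable_fst).const_mul _).const_add _
  · refine Finset.measurable_fun_sum _ fun i _ => Measurable.mul_const ?_ _
    exact (measurable_pi_apply _).comp measurable_snd

/-- `G` and `ω` have polynomial size, `G` is nonnegative, `ω` is positive and not too small -/
def PolyS (G ω : ℕ → ℝ) : Prop :=
  ∃ D : ℕ, ∀ᶠ p : ℕ in atTop, 0 ≤ G p ∧ G p ≤ (p : ℝ) ^ D ∧ ((p : ℝ) ^ D)⁻¹ ≤ ω p ∧ ω p ≤ (p : ℝ) ^ D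

theorem head_ae {α : ℝ} (hα : 1 < α) {G ω : ℕ → ℝ} (hP : PolyS G ω) {k : ℕ} (hk : 0 < k) (y : ℕ → ℝ) :
    ∀ᵐ c ∂(volume : Measure (Fin k → ℝ)), (∀ i, c i ∈ Set.Icc (0 : ℝ) 1) →
      Pois α (Gt G ω k y) (ωt ω k) (fun i : Fin k => c i.rev) := by
  obtain ⟨D, hD⟩ := hP
  have hmain : ∀ᵐ c : Fin k → ℝ, Adm (Gt G ω k y) (ωt ω k) c → Pois α (Gt G ω k y) (ωt ω k) c := by
    refine region hk hα (D := D + k + 2) ?_ ?_ fun D' u v hF => ae_pois hF
    · filter_upwards [hD, eventually_ge_atTop 3] with p h1 h2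
      have h3 : (3 : ℝ) ≤ p := by exact_mod_cast h2
      have h4 := tl_nonneg k y p
      have h5 := tl_le k y p
      have hpD : (1 : ℝ) ≤ (p : ℝ) ^ D := one_le_pow₀ (by linarith)
      have hω : 0 ≤ ω p := le_trans (by positivity) h1.2.2.1
      unfold Gt
      rw [abs_of_nonneg (add_nonneg h1.1 (mul_nonneg hω h4))]
      calc G p + ω p * tl k y p ≤ (p : ℝ) ^ D + (p : ℝ) ^ D * 2 := by
            refine add_le_add h1.2.1 (mul_le_mul h1.2.2.2 h5 h4 (by linarith))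
        _ ≤ (p : ℝ) ^ D * p := by nlinarith
        _ = (p : ℝ) ^ (D + 1) := by rw [pow_succ]
        _ ≤ _ := pow_le_pow_right₀ (by linarith) (by omega)
    · filter_upwards [hD, eventually_ge_atTop 1] with p h1 h2
      have h3 : (1 : ℝ) ≤ p := by exact_mod_cast h2
      have hpk : (0 : ℝ) < (p : ℝ) ^ (k - 1) := by positivity
      have hpD : (0 : ℝ) < (p : ℝ) ^ D := by positivity
      have hω : 0 ≤ ω p := le_trans (by positivity) h1.2.2.1
      unfold ωt
      constructor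
      · rw [le_div_iff₀ hpk]
        refine le_trans ?_ h1.2.2.1
        rw [inv_mul_le_iff₀ (by positivity), ← div_eq_mul_inv, le_div_iff₀ hpD, ← pow_add]
        exact pow_le_pow_right₀ h3 (by omega)
      · calc ω p / (p : ℝ) ^ (k - 1) ≤ ω p := div_le_self hω (one_le_pow₀ h3)
          _ ≤ (p : ℝ) ^ D := h1.2.2.2
          _ ≤ _ := pow_le_pow_right₀ h3 (by omega)
  -- the reversed parameters
  have hmp : MeasurePreserving (fun c : Fin k → ℝ => fun i : Fin k => c i.rev) volume volume := by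
    have h1 := volume_measurePreserving_piCongrLeft (fun _ : Fin k => ℝ) (Fin.revPerm (n := k))
    convert h1 using 1
    funext c i
    have : MeasurableEquiv.piCongrLeft (fun _ : Fin k => ℝ) (Fin.revPerm (n := k)) c (Fin.revPerm i.rev) = c i.rev :=
      MeasurableEquiv.piCongrLeft_apply_apply (β := fun _ : Fin k => ℝ) (Fin.revPerm (n := k)) c i.rev
    rw [← this]
    simp
  have hmain' := hmp.quasiMeasurePreserving.ae hmain
  have h0 : ∀ᵐ c ∂(volume : Measure (Fin k → ℝ)), c ⟨0, hk⟩ ≠ 0 := by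
    rw [volume_pi]
    have := Measure.pi_hyperplane (fun _ : Fin k => (volume : Measure ℝ)) ⟨0, hk⟩ 0
    rw [ae_iff]
    simpa using this
  filter_upwards [hmain', h0] with c hc hc0 hcI
  refine hc ⟨c ⟨0, hk⟩, lt_of_le_of_ne (hcI _).1 hc0.symm, ?_⟩
  filter_upwards [hD, eventually_ge_atTop 1] with p h1 h2
  have h3 : (1 : ℝ) ≤ p := by exact_mod_cast h2
  have hpk : (0 : ℝ) < (p : ℝ) ^ (k - 1) := by positivity
  have hω : 0 ≤ ω p := le_trans (by positivity) h1.2.2.1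
  have hωt : 0 ≤ ωt ω k p := div_nonneg hω hpk.le
  have hG : 0 ≤ Gt G ω k y p := add_nonneg h1.1 (mul_nonneg hω (tl_nonneg k y p))
  unfold amp
  have h4 : c ⟨0, hk⟩ * (p : ℝ) ^ (k - 1) ≤ ∑ i : Fin k, c i.rev * (p : ℝ) ^ (i : ℕ) := by
    have h5 := Finset.single_le_sum (f := fun i : Fin k => c i.rev * (p : ℝ) ^ (i : ℕ))
      (fun i _ => mul_nonneg (hcI _).1 (by positivity)) (Finset.mem_univ (⟨k - 1, by omega⟩ : Fin k))
    refine le_trans (le_of_eq ?_) h5
    have e1 : (⟨k - 1, by omega⟩ : Fin k).rev = ⟨0, hk⟩ := by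
      ext
      simp only [Fin.val_rev]
      omega
    simp only [e1]
  calc c ⟨0, hk⟩ * (ωt ω k p * (p : ℝ) ^ (k - 1)) = ωt ω k p * (c ⟨0, hk⟩ * (p : ℝ) ^ (k - 1)) := by ring
    _ ≤ ωt ω k p * ∑ i : Fin k, c i.rev * (p : ℝ) ^ (i : ℕ) := mul_le_mul_of_nonneg_left h4 hωt
    _ ≤ _ := by linarith

open ProbabilityTheory in
/-- **All the correlations of the series.** -/
theorem series {Ω : Type} [MeasurableSpace Ω] {P : Measure Ω} [IsProbabilityMeasure P] {X : ℕ → Ω → ℝ}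
    (hX : ∀ j, Measurable (X j)) (hi : iIndepFun X P)
    (hu : ∀ j, P.map (X j) = volume.restrict (Set.Icc 0 1)) {α : ℝ} (hα : 1 < α) {G ω : ℕ → ℝ}
    (hP : PolyS G ω) : ∀ᵐ w ∂P, ∀ r : ℕ, ∀ s t : Fin r → ℝ, (∀ i, 0 < s i) → (∀ i, s i < t i) →
      Tendsto (HH α (ampS G ω fun j => X j w) 0 (Fin.elim0 : Fin 0 → ℝ) s t) atTop (𝓝 (LL α s t)) := by
  have hI : ∀ᵐ w ∂P, ∀ j, X j w ∈ Set.Icc (0 : ℝ) 1 := by
    rw [ae_all_iff]
    intro j
    have h1 : ∀ᵐ x ∂(P.map (X j)), x ∈ Set.Icc (0 : ℝ) 1 := by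
      rw [hu j]
      exact ae_restrict_mem measurableSet_Icc
    exact ae_of_ae_map (hX j).aemeasurable h1
  have h : ∀ r : ℕ, ∀ st : (Fin r → ℚ) × (Fin r → ℚ), ∀ᵐ w ∂P,
      (∀ i, 0 < st.1 i) → (∀ i, st.1 i < st.2 i) →
      Tendsto (HH α (ampS G ω fun j => X j w) 0 (Fin.elim0 : Fin 0 → ℝ) (fun i => (st.1 i : ℝ))
        (fun i => (st.2 i : ℝ))) atTop (𝓝 (LL α (fun i => (st.1 i : ℝ)) (fun i => (st.2 i : ℝ)))) := by
    intro r st
    by_cases hh : (∀ i, 0 < st.1 i) ∧ ∀ i, st.1 i < st.2 i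
    · obtain ⟨h2, h3⟩ := hh
      have h2' : ∀ i, (0 : ℝ) < st.1 i := fun i => by exact_mod_cast h2 i
      have h3' : ∀ i, (st.1 i : ℝ) < st.2 i := fun i => by exact_mod_cast h3 i
      set k := 2 * (r + 1) with hk
      have hk0 : 0 < k := by omega
      have hs := ae_series (P := P) hX hi hu k
        (p := fun y c => Tendsto (HH α (Gt G ω k y) (ωt ω k) (fun i : Fin k => c i.rev)
          (fun i => (st.1 i : ℝ)) (fun i => (st.2 i : ℝ))) atTop
          (𝓝 (LL α (fun i => (st.1 i : ℝ)) (fun i => (st.2 i : ℝ)))))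
        (measurableSet_tendsto (𝓝 (LL α (fun i => (st.1 i : ℝ)) (fun i => (st.2 i : ℝ))))
          (fun n => measurable_HH α G ω k (fun i => (st.1 i : ℝ)) (fun i => (st.2 i : ℝ)) n))
        (fun y => by
          filter_upwards [head_ae hα hP hk0 y] with c hc hcI
          exact hc hcI r le_rfl _ _ h2' h3')
      filter_upwards [hs, hI] with w hw hw' _ _
      refine hw.congr fun n => ?_
      refine HH_congr α _ _ _ _ _ _ (fun p hp => ?_) h2' h3' n
      rw [← ampS_eq G ω hw' hk0 hp]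
      unfold amp
      simp
    · exact Eventually.of_forall fun w h1 h2 => absurd ⟨h1, h2⟩ hh
  have h2 : ∀ᵐ w ∂P, ∀ r : ℕ, ∀ st : (Fin r → ℚ) × (Fin r → ℚ),
      (∀ i, 0 < st.1 i) → (∀ i, st.1 i < st.2 i) →
      Tendsto (HH α (ampS G ω fun j => X j w) 0 (Fin.elim0 : Fin 0 → ℝ) (fun i => (st.1 i : ℝ))
        (fun i => (st.2 i : ℝ))) atTop (𝓝 (LL α (fun i => (st.1 i : ℝ)) (fun i => (st.2 i : ℝ)))) :=
    ae_all_iff.2 fun r => ae_all_iff.2 fun st => h r st
  filter_upwards [h2] with w hw r s t hs hst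
  exact dens hα _ _ _ (fun s t h3 h4 => hw r (s, t) h3 h4) hs hst

open Classical in
/-- **The exact Poisson law of the gaps** from all the correlations -/
theorem gap_exact {α : ℝ} (hα : 1 < α) {a : ℕ → ℝ}
    (h : ∀ r : ℕ, ∀ s t : Fin r → ℝ, (∀ i, 0 < s i) → (∀ i, s i < t i) →
      Tendsto (HH α a 0 (Fin.elim0 : Fin 0 → ℝ) s t) atTop (𝓝 (LL α s t))) {t : ℝ} (ht : 1 < t) (j : ℕ) :
    Tendsto (fun n : ℕ => (∑ p ∈ Pr 1 n, gi α a 0 (Fin.elim0 : Fin 0 → ℝ) p *
        (if KK α a 0 (Fin.elim0 : Fin 0 → ℝ) 1 t p = j then (1 : ℝ) else 0)) /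
        (∑ p ∈ Pr 1 n, gi α a 0 (Fin.elim0 : Fin 0 → ℝ) p)) atTop
      (𝓝 (Real.exp (-(kap α * Real.log t)) * (kap α * Real.log t) ^ j / (j.factorial : ℝ))) := by
  have hκ := kap_pos hα
  have hlt : 0 < Real.log t := Real.log_pos ht
  have hgood : ∀ N, Good α a 0 t N (Fin.elim0 : Fin 0 → ℝ) := by
    intro N r _
    have h1 := h r (fun _ => 1) (fun _ => t) (fun _ => one_pos) (fun _ => ht)
    unfold LL at h1
    simp only [div_one, Finset.prod_const, Finset.card_univ, Fintype.card_fin] at h1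
    refine h1.congr fun n => ?_
    unfold HH
    simp only [sum_Tp_desc α a 0 _ ht]
  rw [Metric.tendsto_nhds]
  intro ε hε
  set lam := kap α * Real.log t with hlam
  have hz : Tendsto (fun m : ℕ => 2 * (cf j m * lam ^ (j + m))) atTop (𝓝 0) := by
    have h1 := (FloorSemiring.tendsto_pow_div_factorial_atTop lam).const_mul (2 * lam ^ j / (j.factorial : ℝ))
    rw [mul_zero] at h1
    refine h1.congr fun m => ?_
    unfold cf
    rw [pow_add]
    field_simp
  obtain ⟨m, hm⟩ := (hz.eventually_lt_const (show (0 : ℝ) < ε / 2 by linarith)).exists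
  filter_upwards [gap hα ht (hgood (j + m + 1)) (ε / 4) (by linarith)] with n hn
  rw [Real.dist_eq]
  refine hn.trans_lt ?_
  linarith

end Pool.Agent.Helper92K9.PL
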