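import Pool.Agent.Helper92K9.PL.Ind
import Pool.Agent.Helper92K9.MP.Lin

set_option autoImplicit false

/-!
# Shifts of the parameters
-/

namespace Pool.Agent.Helper92K9.PL

open Finset Filter Topology MeasureTheory
open Pool.Agent.Helper92K9.MP

variable {k : ℕ}

/-- the box -/
def Bx (u v : Fin k → ℝ) : Set (Fin k → ℝ) := Set.pi Set.univ fun j => Set.Ioc (u j) (v j)

lemma measurableSet_Bx (u v : Fin k → ℝ) : MeasurableSet (Bx u v) :=
  MeasurableSet.univ_pi fun _ => measurableSet_Ioc

lemma Bx_lt_top (u v : Fin k → ℝ) : volume (Bx u v) < ⊤ := by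
  unfold Bx
  rw [volume_pi_pi]
  exact ENNReal.prod_lt_top fun j _ => by simp

instance (u v : Fin k → ℝ) : IsFiniteMeasure (volume.restrict (Bx u v)) :=
  ⟨by rw [Measure.restrict_apply_univ]; exact Bx_lt_top u v⟩

lemma integrable_bdd {X : Type} [MeasurableSpace X] {μ : Measure X} [IsFiniteMeasure μ]
    {f : X → ℝ} (hf : Measurable f) {C : ℝ} (h1 : ∀ z, |f z| ≤ C) : Integrable f μ :=
  Integrable.of_bound hf.aestronglyMeasurable C (Eventually.of_forall fun z => h1 z)

/-- a small shift of the box changes the integral little -/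
lemma box_shift {u v : Fin k → ℝ} (huv : ∀ j, u j < v j) : ∃ C δ : ℝ, 0 < C ∧ 0 < δ ∧
    ∀ F : (Fin k → ℝ) → ℝ, Measurable F → (∀ c, 0 ≤ F c) → (∀ c, F c ≤ 1) →
    ∀ (η : ℝ) (w : Fin k → ℝ), η ≤ δ → (∀ j, |w j| ≤ η) → 0 ≤ η →
    |(∫ c in Bx u v, F (c + w)) - ∫ c in Bx u v, F c| ≤ C * η := by
  classical
  -- bounds of the sides
  obtain ⟨δ, hδ0, hδ⟩ : ∃ δ : ℝ, 0 < δ ∧ ∀ j, 2 * δ ≤ v j - u j := by
    rcases isEmpty_or_nonempty (Fin k) with h | h
    · exact ⟨1, one_pos, fun j => (h.false j).elim⟩
    · obtain ⟨j0, _, hj0⟩ := Finset.exists_min_image Finset.univ (fun j => v j - u j) Finset.univ_nonempty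
      exact ⟨(v j0 - u j0) / 2, by linarith [huv j0], fun j => by
        have := hj0 j (Finset.mem_univ j); linarith⟩
  obtain ⟨K, hK1, hK⟩ : ∃ K : ℝ, 1 ≤ K ∧ ∀ j, (v j - u j) + 2 ≤ K := by
    refine ⟨1 + ∑ j, ((v j - u j) + 2), ?_, fun j => ?_⟩
    · have : 0 ≤ ∑ j, ((v j - u j) + 2) := Finset.sum_nonneg fun j _ => by linarith [huv j]
      linarith
    · have := Finset.single_le_sum (f := fun j => (v j - u j) + 2)
        (fun j _ => by linarith [huv j]) (Finset.mem_univ j)
      linarith
  refine ⟨k * K ^ k * 4 + 1, min δ 1, by positivity, lt_min hδ0 one_pos,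
    fun F hF hF0 hF1 η w hη hw hη0 => ?_⟩
  have hηδ : η ≤ δ := hη.trans (min_le_left _ _)
  have hη1 : η ≤ 1 := hη.trans (min_le_right _ _)
  set S := Bx u v with hS
  set Sp := Bx (fun j => u j - η) (fun j => v j + η) with hSp
  set Sm := Bx (fun j => u j + η) (fun j => v j - η) with hSm
  have hSmeas : MeasurableSet S := measurableSet_Bx u v
  have e1 : ∫ c in S, F (c + w) = ∫ c, S.indicator (fun _ => (1 : ℝ)) (c - w) * F c := by
    rw [← integral_indicator hSmeas]
    have e2 := integral_add_right_eq_self (μ := (volume : Measure (Fin k → ℝ)))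
      (fun c => S.indicator (fun _ => (1 : ℝ)) (c - w) * F c) w
    rw [← e2]
    refine integral_congr_ae (Eventually.of_forall fun c => ?_)
    by_cases hc : c ∈ S
    · simp [Set.indicator_of_mem hc]
    · simp [Set.indicator_of_notMem hc]
  have e2 : ∫ c in S, F c = ∫ c, S.indicator (fun _ => (1 : ℝ)) c * F c := by
    rw [← integral_indicator hSmeas]
    refine integral_congr_ae (Eventually.of_forall fun c => ?_)
    by_cases hc : c ∈ S
    · simp [Set.indicator_of_mem hc]
    · simp [Set.indicator_of_notMem hc]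
  have i0 : ∀ T : Set (Fin k → ℝ), MeasurableSet T → volume T < ⊤ →
      Integrable (T.indicator (fun _ => (1 : ℝ))) volume := fun T hT hT2 => by
    rw [integrable_indicator_iff hT]
    exact integrableOn_const (hs := hT2.ne)
  have i1 : Integrable (fun c => S.indicator (fun _ => (1 : ℝ)) (c - w) * F c) volume := by
    have := (i0 S hSmeas (Bx_lt_top _ _)).comp_sub_right w
    exact this.mul_bdd (c := 1) hF.aestronglyMeasurable (Eventually.of_forall fun c => by
      rw [Real.norm_of_nonneg (hF0 c)]; exact hF1 c)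
  have i2 : Integrable (fun c => S.indicator (fun _ => (1 : ℝ)) c * F c) volume := by
    have := (i0 S hSmeas (Bx_lt_top _ _))
    exact this.mul_bdd (c := 1) hF.aestronglyMeasurable (Eventually.of_forall fun c => by
      rw [Real.norm_of_nonneg (hF0 c)]; exact hF1 c)
  have ip := i0 Sp (measurableSet_Bx _ _) (Bx_lt_top _ _)
  have im := i0 Sm (measurableSet_Bx _ _) (Bx_lt_top _ _)
  rw [e1, e2, ← integral_sub i1 i2]
  have hbd : ∀ c, |S.indicator (fun _ => (1 : ℝ)) (c - w) * F c - S.indicator (fun _ => (1 : ℝ)) c * F c| ≤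
      Sp.indicator (fun _ => (1 : ℝ)) c - Sm.indicator (fun _ => (1 : ℝ)) c := by
    intro c
    rw [← sub_mul, abs_mul, abs_of_nonneg (hF0 c)]
    have hind : ∀ T : Set (Fin k → ℝ), ∀ x, 0 ≤ T.indicator (fun _ => (1 : ℝ)) x ∧
        T.indicator (fun _ => (1 : ℝ)) x ≤ 1 := fun T x => by
      by_cases hx : x ∈ T
      · simp [hx]
      · simp [hx]
    have h1 := hind S (c - w)
    have h2 := hind S c
    have hle : |S.indicator (fun _ => (1 : ℝ)) (c - w) - S.indicator (fun _ => (1 : ℝ)) c| ≤ 1 := by
      rw [abs_le]; constructor <;> linarith [h1.1, h1.2, h2.1, h2.2]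
    have hgoal : |S.indicator (fun _ => (1 : ℝ)) (c - w) - S.indicator (fun _ => (1 : ℝ)) c| ≤
        Sp.indicator (fun _ => (1 : ℝ)) c - Sm.indicator (fun _ => (1 : ℝ)) c := by
      have hmem : ∀ x : Fin k → ℝ, ∀ a b : Fin k → ℝ, x ∈ Bx a b ↔ ∀ j, a j < x j ∧ x j ≤ b j := by
        intro x a b
        simp [Bx, Set.mem_pi]
      by_cases hm : c ∈ Sm
      · have hcS : c ∈ S := by
          rw [hS, hmem]; rw [hSm, hmem] at hm
          exact fun j => ⟨by linarith [(hm j).1], by linarith [(hm j).2]⟩
        have hcS2 : c - w ∈ S := by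
          rw [hS, hmem]; rw [hSm, hmem] at hm
          intro j
          have := abs_le.1 (hw j)
          simp only [Pi.sub_apply]
          exact ⟨by linarith [(hm j).1], by linarith [(hm j).2]⟩
        have hcp : c ∈ Sp := by
          rw [hSp, hmem]; rw [hSm, hmem] at hm
          exact fun j => ⟨by linarith [(hm j).1], by linarith [(hm j).2]⟩
        simp [hcS, hcS2, hcp, hm]
      · by_cases hp : c ∈ Sp
        · rw [Set.indicator_of_mem hp, Set.indicator_of_notMem hm, sub_zero]
          exact hle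
        · have hcS : c ∉ S := fun h => hp (by
            rw [hS, hmem] at h; rw [hSp, hmem]
            exact fun j => ⟨by linarith [(h j).1], by linarith [(h j).2]⟩)
          have hcS2 : c - w ∉ S := fun h => hp (by
            rw [hS, hmem] at h; rw [hSp, hmem]
            intro j
            have h3 := abs_le.1 (hw j)
            have h4 := h j
            simp only [Pi.sub_apply] at h4
            exact ⟨by linarith [h4.1], by linarith [h4.2]⟩)
          simp [hcS, hcS2, hp, hm]
    calc _ ≤ |S.indicator (fun _ => (1 : ℝ)) (c - w) - S.indicator (fun _ => (1 : ℝ)) c| * 1 :=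
          mul_le_mul_of_nonneg_left (hF1 c) (abs_nonneg _)
      _ ≤ _ := by rw [mul_one]; exact hgoal
  have h3 : |∫ c, (S.indicator (fun _ => (1 : ℝ)) (c - w) * F c - S.indicator (fun _ => (1 : ℝ)) c * F c)| ≤
      ∫ c, (Sp.indicator (fun _ => (1 : ℝ)) c - Sm.indicator (fun _ => (1 : ℝ)) c) := by
    have h4 := norm_integral_le_of_norm_le (μ := (volume : Measure (Fin k → ℝ)))
      (f := fun c => S.indicator (fun _ => (1 : ℝ)) (c - w) * F c - S.indicator (fun _ => (1 : ℝ)) c * F c)
      (ip.sub im) (Eventually.of_forall fun c => by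
        rw [Real.norm_eq_abs]
        exact hbd c)
    rw [Real.norm_eq_abs] at h4
    exact h4
  refine h3.trans ?_
  rw [integral_sub ip im, integral_indicator (measurableSet_Bx _ _), integral_indicator (measurableSet_Bx _ _),
    setIntegral_const, setIntegral_const, smul_eq_mul, smul_eq_mul, mul_one, mul_one]
  have v1 : (volume : Measure (Fin k → ℝ)).real Sp = ∏ j, ((v j - u j) + 2 * η) := by
    rw [Measure.real, hSp, Bx, Real.volume_pi_Ioc_toReal (fun j => by
      show u j - η ≤ v j + η
      linarith [huv j])]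
    exact Finset.prod_congr rfl fun j _ => by ring
  have v2 : (volume : Measure (Fin k → ℝ)).real Sm = ∏ j, ((v j - u j) - 2 * η) := by
    rw [Measure.real, hSm, Bx, Real.volume_pi_Ioc_toReal (fun j => by
      show u j + η ≤ v j - η
      linarith [hδ j])]
    exact Finset.prod_congr rfl fun j _ => by ring
  rw [v1, v2]
  have h4 := prod_sub_le Finset.univ (a := fun j => (v j - u j) + 2 * η) (b := fun j => (v j - u j) - 2 * η)
    (X := fun _ => 1) (K := K) (ρ := 4 * η) (by positivity) hK1 (fun _ _ => zero_le_one)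
    (fun j _ => by
      rw [abs_of_nonneg (by linarith [huv j]), mul_one]
      linarith [hK j])
    (fun j _ => by
      rw [abs_of_nonneg (by linarith [hδ j]), mul_one]
      linarith [hK j])
    (fun j _ => by
      rw [abs_of_nonneg (by linarith)]
      linarith)
  rw [Finset.card_univ, Fintype.card_fin, Finset.prod_const_one, mul_one] at h4
  have h5 := (le_abs_self _).trans h4
  have h6 : (k * K ^ k * 4 + 1) * η = k * K ^ k * (4 * η) + η := by ring
  rw [h6]
  linarith

end Pool.Agent.Helper92K9.PL
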