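import Pool.Agent.Helper92K9.PL.Tup
import Pool.Agent.Helper92K9.MP.Inj
import Pool.Agent.Helper92K9.PL.Idx

set_option autoImplicit false

/-!
# Sums over tuples of primes
-/

namespace Pool.Agent.Helper92K9.PL

open Finset Filter Topology MeasureTheory
open Pool.Agent.Helper92K9.MP

/-- a weight that is asymptotic to `κ log p / p` -/
structure Wt (f : ℕ → ℝ) (κ : ℝ) : Prop where
  nonneg : ∀ p, 0 ≤ f p
  lim : Tendsto (fun p : ℕ => f p / xx p) atTop (𝓝 κ)

lemma xx_pos {p : ℕ} (hp : 2 ≤ p) : 0 < xx p := by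
  unfold xx
  have h1 : (1 : ℝ) < p := by exact_mod_cast (by omega : 1 < p)
  exact div_pos one_pos (by linarith)

lemma xx_tendsto : Tendsto xx atTop (𝓝 0) := by
  exact (tendsto_const_nhds (x := (1 : ℝ))).div_atTop tendsto_natCast_atTop_atTop

lemma wt_xx : Wt xx 1 := by
  refine ⟨xx_nonneg, ?_⟩
  refine (tendsto_const_nhds (x := (1 : ℝ))).congr' ?_
  filter_upwards [eventually_ge_atTop 2] with p hp
  rw [div_self (xx_pos hp).ne']

/-- the intensity -/
noncomputable def kap (α : ℝ) : ℝ := 1 / Real.log α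

lemma wt_mu {α : ℝ} (hα : 1 < α) : Wt (mu α) (kap α) := by
  refine ⟨mu_nonneg hα, ?_⟩
  have hL : 0 < Real.log α := Real.log_pos hα
  refine (tendsto_const_nhds (x := kap α)).congr' ?_
  filter_upwards [eventually_ge_atTop 2] with p hp
  have h1 : (1 : ℝ) < p := by exact_mod_cast (by omega : 1 < p)
  unfold mu xx kap
  field_simp

lemma Wt.zero {f : ℕ → ℝ} {κ : ℝ} (hf : Wt f κ) : Tendsto f atTop (𝓝 0) := by
  have h := hf.lim.mul xx_tendsto
  rw [mul_zero] at h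
  refine h.congr' ?_
  filter_upwards [eventually_ge_atTop 2] with p hp
  rw [div_mul_cancel₀ _ (xx_pos hp).ne']

lemma Wt.κ_nonneg {f : ℕ → ℝ} {κ : ℝ} (hf : Wt f κ) : 0 ≤ κ :=
  ge_of_tendsto' hf.lim fun p => div_nonneg (hf.nonneg p) (xx_nonneg p)

/-- sums of functions that are close to a multiple of `f` -/
lemma sum_close {f g : ℕ → ℝ} {L c : ℝ} {F : ℝ → Finset ℕ} (hf : ∀ p, 0 ≤ f p)
    (hF : ∀ N : ℕ, ∀ᶠ z : ℝ in atTop, ∀ p ∈ F z, N ≤ p)
    (hsum : Tendsto (fun z => ∑ p ∈ F z, f p) atTop (𝓝 L))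
    (hg : ∀ ε > 0, ∀ᶠ p : ℕ in atTop, |g p - c * f p| ≤ ε * f p) :
    Tendsto (fun z => ∑ p ∈ F z, g p) atTop (𝓝 (c * L)) := by
  have hd : Tendsto (fun z => ∑ p ∈ F z, g p - c * ∑ p ∈ F z, f p) atTop (𝓝 0) := by
    rw [Metric.tendsto_nhds]
    intro ε hε
    have hL0 : 0 ≤ L := ge_of_tendsto' hsum fun z => Finset.sum_nonneg fun p _ => hf p
    obtain ⟨N, hN⟩ := eventually_atTop.1 (hg (ε / (2 * (L + 1))) (by positivity))
    filter_upwards [hF N, hsum.eventually_lt_const (show L < L + 1 by linarith)] with z h1 h2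
    rw [Real.dist_eq, sub_zero, Finset.mul_sum, ← Finset.sum_sub_distrib]
    calc |∑ p ∈ F z, (g p - c * f p)| ≤ ∑ p ∈ F z, |g p - c * f p| := Finset.abs_sum_le_sum_abs _ _
      _ ≤ ∑ p ∈ F z, ε / (2 * (L + 1)) * f p := Finset.sum_le_sum fun p hp => hN p (h1 p hp)
      _ = ε / (2 * (L + 1)) * ∑ p ∈ F z, f p := by rw [Finset.mul_sum]
      _ ≤ ε / (2 * (L + 1)) * (L + 1) := by gcongr
      _ = ε / 2 := by field_simp
      _ < ε := by linarith
  have h := hd.add (hsum.const_mul c)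
  rw [zero_add] at h
  refine h.congr fun z => ?_
  ring

lemma Pr_large {a b : ℝ} (ha : 0 < a) (hb : 0 < b) (N : ℕ) : ∀ᶠ z : ℝ in atTop, ∀ p ∈ Pr (a * z) (b * z), N ≤ p := by
  have h1 : ∀ᶠ z : ℝ in atTop, (N : ℝ) ≤ a * z := (tendsto_id.const_mul_atTop ha).eventually_ge_atTop _
  filter_upwards [h1, eventually_gt_atTop 0] with z hz hz0 p hp
  have h2 := ((mem_Pr (by positivity) (by positivity)).1 hp).2.1
  exact_mod_cast (hz.trans h2.le)

lemma Wt.sum {f : ℕ → ℝ} {κ : ℝ} (hf : Wt f κ) {a b : ℝ} (ha : 0 < a) (hab : a < b) :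
    Tendsto (fun z : ℝ => ∑ p ∈ Pr (a * z) (b * z), f p) atTop (𝓝 (κ * Real.log (b / a))) := by
  refine sum_close xx_nonneg (Pr_large ha (ha.trans hab)) (mertens ha hab) fun ε hε => ?_
  have h1 := (Metric.tendsto_nhds.1 hf.lim) ε hε
  filter_upwards [h1, eventually_ge_atTop 2] with p hp hp2
  have hx := xx_pos hp2
  rw [Real.dist_eq] at hp
  have e : f p - κ * xx p = (f p / xx p - κ) * xx p := by
    rw [sub_mul, div_mul_cancel₀ _ hx.ne']
  rw [e, abs_mul, abs_of_pos hx]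
  exact mul_le_mul_of_nonneg_right hp.le hx.le

/-- the windows of a tuple with the first entry `p` -/
noncomputable def Wd {r : ℕ} (s t : Fin r → ℝ) (p : ℕ) : Fin (r + 1) → Finset ℕ :=
  Fin.cons {p} fun i => Pr (s i * p) (t i * p)

open Classical in
/-- the injective tuples of primes with the first entry `p` -/
noncomputable def Tp {r : ℕ} (s t : Fin r → ℝ) (p : ℕ) : Finset (Fin (r + 1) → ℕ) :=
  (Fintype.piFinset (Wd s t p)).filter fun q => Function.Injective q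

/-- the sum over the tuples with a given first entry -/
lemma tp_sum {f : ℕ → ℝ} {κ : ℝ} (hf : Wt f κ) {r : ℕ} {s t : Fin r → ℝ} (hs : ∀ i, 0 < s i)
    (hst : ∀ i, s i < t i) : ∀ ε > 0, ∀ᶠ p : ℕ in atTop,
    |∑ q ∈ Tp s t p, ∏ l, f (q l) - (∏ i, κ * Real.log (t i / s i)) * f p| ≤ ε * f p := by
  classical
  intro ε hε
  set Λ : Fin r → ℝ := fun i => κ * Real.log (t i / s i) with hΛ
  have hκ := hf.κ_nonneg
  have hΛ0 : ∀ i, 0 ≤ Λ i := fun i => mul_nonneg hκ (Real.log_pos ((one_lt_div (hs i)).2 (hst i))).le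
  have h1 : ∀ i, Tendsto (fun p : ℕ => ∑ q ∈ Pr (s i * p) (t i * p), f q) atTop (𝓝 (Λ i)) := fun i =>
    (hf.sum (hs i) (hst i)).comp tendsto_natCast_atTop_atTop
  have h2 : Tendsto (fun p : ℕ => ∏ i, ∑ q ∈ Pr (s i * p) (t i * p), f q) atTop (𝓝 (∏ i, Λ i)) :=
    tendsto_finset_prod _ fun i _ => h1 i
  set B := 1 + ∑ i, (Λ i + 1) with hB
  have hsB : ∀ i, Λ i + 1 ≤ B := fun i => by
    have := Finset.single_le_sum (f := fun i => Λ i + 1) (fun i _ => by linarith [hΛ0 i]) (Finset.mem_univ i)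
    rw [hB]; linarith
  have hB1 : 1 ≤ B := by
    have : 0 ≤ ∑ i, (Λ i + 1) := Finset.sum_nonneg fun i _ => by linarith [hΛ0 i]
    rw [hB]; linarith
  set ε1 := ε / (2 * ((r + 1) ^ 2 * B ^ (r + 1))) with hε1
  have hε10 : 0 < ε1 := by positivity
  have h3 : ∀ᶠ p : ℕ in atTop, f p < ε1 := hf.zero.eventually_lt_const hε10
  obtain ⟨N, hN⟩ := eventually_atTop.1 h3
  have h4 : ∀ i, ∀ᶠ p : ℕ in atTop, ∀ q ∈ Pr (s i * p) (t i * p), N ≤ q := fun i =>
    (tendsto_natCast_atTop_atTop (R := ℝ)).eventually (Pr_large (hs i) ((hs i).trans (hst i)) N)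
  have h5 : ∀ i, ∀ᶠ p : ℕ in atTop, ∑ q ∈ Pr (s i * p) (t i * p), f q < Λ i + 1 := fun i =>
    (h1 i).eventually_lt_const (by linarith)
  have h6 := (Metric.tendsto_nhds.1 h2) (ε / 2) (by positivity)
  filter_upwards [eventually_all.2 h4, eventually_all.2 h5, h6] with p g4 g5 g6
  have hinj := sum_inj (Wd s t p) hf.nonneg (ε := ε1) (B := B) hε10.le hB1
    (fun l hl q hq => by
      obtain ⟨i, rfl⟩ := Fin.exists_succ_eq.2 hl
      simp only [Wd, Fin.cons_succ] at hq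
      exact (hN q (g4 i q hq)).le)
    (fun l hl => by
      obtain ⟨i, rfl⟩ := Fin.exists_succ_eq.2 hl
      simp only [Wd, Fin.cons_succ]
      exact (g5 i).le.trans (hsB i))
  have e1 : ∏ l, ∑ q ∈ Wd s t p l, f q = f p * ∏ i, ∑ q ∈ Pr (s i * p) (t i * p), f q := by
    rw [Fin.prod_univ_succ]
    simp [Wd]
  have e2 : ∑ q ∈ Wd s t p 0, f q = f p := by simp [Wd]
  rw [e1, e2] at hinj
  have e3 : (r + 1 : ℝ) ^ 2 * (ε1 * (B ^ (r + 1) * f p)) = ε / 2 * f p := by
    rw [hε1]; field_simp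
  rw [e3] at hinj
  rw [Real.dist_eq] at g6
  have hfp := hf.nonneg p
  have g7 : |f p * ∏ i, ∑ q ∈ Pr (s i * p) (t i * p), f q - (∏ i, Λ i) * f p| ≤ ε / 2 * f p := by
    rw [mul_comm (∏ i, Λ i), ← mul_sub, abs_mul, abs_of_nonneg hfp, mul_comm]
    exact mul_le_mul_of_nonneg_right g6.le hfp
  unfold Tp
  rw [abs_le] at *
  constructor
  · linarith [hinj.1, g7.1]
  · linarith [hinj.2, g7.2]

open Classical in
/-- the tuples of the block `j` -/
noncomputable def TT {r : ℕ} (s t : Fin r → ℝ) (j : ℕ) : Finset (Fin (r + 1) → ℕ) :=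
  (Pr (Real.exp j) (Real.exp (j + 1))).biUnion fun p => Tp s t p

lemma mem_Tp {r : ℕ} {s t : Fin r → ℝ} (hs : ∀ i, 0 < s i) (hst : ∀ i, s i < t i) {p : ℕ}
    {q : Fin (r + 1) → ℕ} : q ∈ Tp s t p ↔ Function.Injective q ∧ q 0 = p ∧
      ∀ i : Fin r, Ix (q i.succ) ∧ s i * p < q i.succ ∧ (q i.succ : ℝ) ≤ t i * p := by
  classical
  unfold Tp
  rw [Finset.mem_filter, Fintype.mem_piFinset, and_comm]
  refine and_congr_right fun _ => ?_
  constructor
  · intro h
    refine ⟨?_, fun i => ?_⟩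
    · have := h 0
      simpa [Wd] using this
    · have := h i.succ
      simp only [Wd, Fin.cons_succ] at this
      have ht := (hs i).trans (hst i)
      have hs' := hs i
      exact (mem_Pr (by positivity) (by positivity)).1 this
  · rintro ⟨h1, h2⟩ l
    refine Fin.cases ?_ (fun i => ?_) l
    · simp [Wd, h1]
    · simp only [Wd, Fin.cons_succ]
      have ht := (hs i).trans (hst i)
      have hs' := hs i
      exact (mem_Pr (by positivity) (by positivity)).2 (h2 i)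

lemma sum_TT {r : ℕ} {s t : Fin r → ℝ} (hs : ∀ i, 0 < s i) (hst : ∀ i, s i < t i) (j : ℕ)
    (Φ : (Fin (r + 1) → ℕ) → ℝ) :
    ∑ q ∈ TT s t j, Φ q = ∑ p ∈ Pr (Real.exp j) (Real.exp (j + 1)), ∑ q ∈ Tp s t p, Φ q := by
  classical
  unfold TT
  rw [Finset.sum_biUnion]
  intro p _ p' _ hpp
  rw [Function.onFun, Finset.disjoint_left]
  intro q hq hq'
  exact hpp (((mem_Tp hs hst).1 hq).2.1.symm.trans ((mem_Tp hs hst).1 hq').2.1)

lemma tt_sum {f : ℕ → ℝ} {κ : ℝ} (hf : Wt f κ) {r : ℕ} {s t : Fin r → ℝ} (hs : ∀ i, 0 < s i)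
    (hst : ∀ i, s i < t i) : Tendsto (fun j : ℕ => ∑ q ∈ TT s t j, ∏ l, f (q l)) atTop
      (𝓝 (κ * ∏ i, (κ * Real.log (t i / s i)))) := by
  simp only [sum_TT hs hst]
  have h1 : Tendsto (fun z : ℝ => ∑ p ∈ Pr (1 * z) (Real.exp 1 * z), f p) atTop (𝓝 κ) := by
    have := hf.sum (a := 1) (b := Real.exp 1) one_pos (Real.one_lt_exp_iff.2 one_pos)
    rwa [div_one, Real.log_exp, mul_one] at this
  have h2 := sum_close (g := fun p => ∑ q ∈ Tp s t p, ∏ l, f (q l)) hf.nonneg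
    (Pr_large one_pos (Real.exp_pos 1)) h1 (tp_sum hf hs hst)
  have h3 := h2.comp (Real.tendsto_exp_atTop.comp (tendsto_natCast_atTop_atTop (R := ℝ)))
  rw [mul_comm] at h3
  refine h3.congr fun j => ?_
  simp only [Function.comp, one_mul]
  rw [← Real.exp_add, add_comm 1 (j : ℝ)]

open Classical in
/-- the injective tuples of primes in given windows -/
noncomputable def TW {r : ℕ} (a b : Fin r → ℝ) (z : ℝ) : Finset (Fin r → ℕ) :=
  (Fintype.piFinset fun i => Pr (a i * z) (b i * z)).filter fun q => Function.Injective q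

lemma tw_sum {f : ℕ → ℝ} {κ : ℝ} (hf : Wt f κ) {r : ℕ} {a b : Fin r → ℝ} (ha : ∀ i, 0 < a i)
    (hab : ∀ i, a i < b i) : Tendsto (fun z : ℝ => ∑ q ∈ TW a b z, ∏ l, f (q l)) atTop
      (𝓝 (∏ i, (κ * Real.log (b i / a i)))) := by
  classical
  cases r with
  | zero =>
    simp only [TW, Finset.univ_eq_empty, Finset.prod_empty]
    refine (tendsto_const_nhds (x := (1 : ℝ))).congr fun z => ?_
    have : (Fintype.piFinset fun i : Fin 0 => Pr (a i * z) (b i * z)).filter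
        (fun q => Function.Injective q) = {Fin.elim0} := by
      ext q
      simp only [Finset.mem_filter, Fintype.mem_piFinset, Finset.mem_singleton]
      constructor
      · intro _
        exact Subsingleton.elim _ _
      · intro _
        exact ⟨fun i => i.elim0, fun i => i.elim0⟩
    rw [this]
    simp
  | succ r =>
    set Λ : Fin (r + 1) → ℝ := fun i => κ * Real.log (b i / a i) with hΛ
    have hκ := hf.κ_nonneg
    have hΛ0 : ∀ i, 0 ≤ Λ i := fun i => mul_nonneg hκ (Real.log_pos ((one_lt_div (ha i)).2 (hab i))).le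
    have h1 : ∀ i, Tendsto (fun z : ℝ => ∑ q ∈ Pr (a i * z) (b i * z), f q) atTop (𝓝 (Λ i)) := fun i =>
      hf.sum (ha i) (hab i)
    have h2 : Tendsto (fun z : ℝ => ∏ i, ∑ q ∈ Pr (a i * z) (b i * z), f q) atTop (𝓝 (∏ i, Λ i)) :=
      tendsto_finset_prod _ fun i _ => h1 i
    set B := 1 + ∑ i, (Λ i + 1) with hB
    have hsB : ∀ i, Λ i + 1 ≤ B := fun i => by
      have := Finset.single_le_sum (f := fun i => Λ i + 1) (fun i _ => by linarith [hΛ0 i]) (Finset.mem_univ i)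
      rw [hB]; linarith
    have hB1 : 1 ≤ B := by
      have : 0 ≤ ∑ i, (Λ i + 1) := Finset.sum_nonneg fun i _ => by linarith [hΛ0 i]
      rw [hB]; linarith
    have hd : Tendsto (fun z : ℝ => ∑ q ∈ TW a b z, ∏ l, f (q l) - ∏ i, ∑ q ∈ Pr (a i * z) (b i * z), f q)
        atTop (𝓝 0) := by
      rw [Metric.tendsto_nhds]
      intro ε hε
      set ε1 := ε / (2 * ((r + 1) ^ 2 * (B ^ (r + 1) * B))) with hε1
      have hε10 : 0 < ε1 := by positivity
      have h3 : ∀ᶠ p : ℕ in atTop, f p < ε1 := hf.zero.eventually_lt_const hε10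
      obtain ⟨N, hN⟩ := eventually_atTop.1 h3
      have h4 : ∀ i, ∀ᶠ z : ℝ in atTop, ∀ q ∈ Pr (a i * z) (b i * z), N ≤ q := fun i =>
        Pr_large (ha i) ((ha i).trans (hab i)) N
      have h5 : ∀ i, ∀ᶠ z : ℝ in atTop, ∑ q ∈ Pr (a i * z) (b i * z), f q < Λ i + 1 := fun i =>
        (h1 i).eventually_lt_const (by linarith)
      filter_upwards [eventually_all.2 h4, eventually_all.2 h5] with z g4 g5
      have hinj := sum_inj (fun i => Pr (a i * z) (b i * z)) hf.nonneg (ε := ε1) (B := B) hε10.le hB1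
        (fun l _ q hq => (hN q (g4 l q hq)).le) (fun l _ => (g5 l).le.trans (hsB l))
      rw [Real.dist_eq, sub_zero]
      unfold TW
      refine hinj.trans_lt ?_
      have g6 : ∑ p ∈ Pr (a 0 * z) (b 0 * z), f p ≤ B := (g5 0).le.trans (hsB 0)
      calc (r + 1 : ℝ) ^ 2 * (ε1 * (B ^ (r + 1) * ∑ p ∈ Pr (a 0 * z) (b 0 * z), f p)) ≤
            (r + 1 : ℝ) ^ 2 * (ε1 * (B ^ (r + 1) * B)) := by gcongr
        _ = ε / 2 := by rw [hε1]; field_simp
        _ < ε := by linarith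
    have h := hd.add h2
    rw [zero_add] at h
    refine h.congr fun z => ?_
    ring

end Pool.Agent.Helper92K9.PL
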